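import Pool.Agent.FNR.Form

/-! # Several formulas at once -/

namespace Pool.Agent.FNR

open MvPolynomial Pool.Agent.FN Pool.Agent.FNX

/-- relations between some of the numbers -/
theorem relV_comp {K L : Type} [Field K] [Field L] [Algebra K L] {δ : Derivation K L L}
    {D N M : ℕ} {a b : Fin N → L} {a' b' : Fin M → L} (h : RelV δ D a' b') (ι : Fin M → Fin N)
    (ha : ∀ i, a' i = a (ι i)) (hb : ∀ i, b' i = b (ι i)) : RelV δ D a b := by
  classical
  obtain ⟨Φ, ⟨h1, h2⟩, h3, h4⟩ := h
  have key : ∀ (c : Fin N → L) (c' : Fin M → L), (∀ i, c' i = c (ι i)) →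
      aeval (jet δ c) (rename (fun v : Fin M × ℕ => (ι v.1, v.2)) Φ) = aeval (jet δ c') Φ := by
    intro c c' hc
    rw [aeval_rename]
    congr 1
    congr 1
    funext v
    change δ^[v.2] (c (ι v.1)) = δ^[v.2] (c' v.1)
    rw [hc]
  refine ⟨rename (fun v : Fin M × ℕ => (ι v.1, v.2)) Φ, ⟨(totalDegree_rename_le _ _).trans h1,
    fun v hv => ?_⟩, ?_, ?_⟩
  · obtain ⟨w, hw, rfl⟩ := Finset.mem_image.1 (vars_rename _ _ hv)
    exact h2 w hw
  · rw [key a a' ha]
    exact h3
  · rw [key b b' hb]
    exact h4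

theorem liftM (n s M : ℕ) : ∃ D : ℕ → ℕ, ∀ {K L : Type} [Field K] [CharZero K] [Field L]
    [IsAlgClosed L] [Algebra K L] (δ : Derivation K L L), CK δ → ∀ (p q : Fin n → L), Spz δ p q →
      ∀ (T : Fin M → Set (Fin n)) (l : Fin M → List L) (z : Fin M → L),
        (∀ i, FormS K s {z | ∃ j ∈ T i, z = q j} (l i)) → (∀ i, (l i).length ≤ s) →
          (∀ i, z i ∈ l i) → ∃ W : Fin M → L, (∀ i, W i ∈ acl K (p '' T i)) ∧
            Spz δ (Fin.append p W : Fin (n + M) → L) (Fin.append q z) ∧
            ∀ D0, RelV δ D0 (Fin.append p W : Fin (n + M) → L) (Fin.append q z) →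
              RelV δ (D D0) p q := by
  classical
  choose E hE using fun N => exists_stp s N
  choose D hD using elim_gd E n
  refine ⟨fun D0 => ∑ m ∈ Finset.range (M * s + 1), D m D0, ?_⟩
  intro K L _ _ _ _ _ δ hδ p q hpq T l z hl hs hz
  -- the list
  have key : ∀ m : ℕ, m ≤ M → ∃ lp : List (L × L), Gd δ E p q lp ∧ lp.length ≤ m * s ∧
      ∀ i : Fin M, (i : ℕ) < m → ∃ w ∈ lp, w.1 ∈ acl K (p '' T i) ∧ w.2 = z i := by
    intro m
    induction m with
    | zero =>
      intro _
      exact ⟨[], Gd.nil hpq, Nat.zero_le _, fun i hi => absurd hi (Nat.not_lt_zero _)⟩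
    | succ m ih =>
      intro hm
      obtain ⟨lp, hg, hlen, hlp⟩ := ih (Nat.le_of_succ_le hm)
      obtain ⟨lp', hlp', hg', hA⟩ := lift_formS δ s E (fun N a b hab => hE N δ hδ a b hab) lp hg
        (T ⟨m, hm⟩) (hl ⟨m, hm⟩)
      refine ⟨lp' ++ lp, hg', ?_, fun i hi => ?_⟩
      · have h1 := congrArg List.length hlp'
        rw [List.length_map] at h1
        have h2 := hs ⟨m, hm⟩
        rw [List.length_append, h1, Nat.succ_mul]
        omega
      · rcases Nat.lt_succ_iff_lt_or_eq.1 hi with h | h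
        · obtain ⟨w, hw, h1, h2⟩ := hlp i h
          exact ⟨w, List.mem_append_right lp' hw, h1, h2⟩
        · have hi' : i = ⟨m, hm⟩ := Fin.ext h
          have h1 := hz ⟨m, hm⟩
          rw [← hlp'] at h1
          obtain ⟨w, hw, hwz⟩ := List.mem_map.1 h1
          refine ⟨w, List.mem_append_left lp hw, ?_, ?_⟩
          · rw [hi']
            exact mem_aclF.1 (hA w hw)
          · rw [hi']
            exact hwz
  obtain ⟨lp, hg, hlen, hlp⟩ := key M le_rfl
  choose w hw hw1 hw2 using fun i : Fin M => hlp i i.2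
  choose ι hιa hιb using fun i => val_mem p q lp (hw i)
  choose κ hκa hκb using fun j => val_start p q lp j
  let f : Fin (n + M) → Fin (n + lp.length) := Fin.append κ ι
  have hfa : ∀ i, (Fin.append p (fun i => (w i).1) : Fin (n + M) → L) i = valA p lp (f i) := by
    intro i
    refine Fin.addCases (fun i => ?_) (fun i => ?_) i
    · simp only [f, Fin.append_left]
      exact (hκa i).symm
    · simp only [f, Fin.append_right]
      exact (hιa i).symm
  have hfb : ∀ i, (Fin.append q z : Fin (n + M) → L) i = valB q lp (f i) := by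
    intro i
    refine Fin.addCases (fun i => ?_) (fun i => ?_) i
    · simp only [f, Fin.append_left]
      exact (hκb i).symm
    · simp only [f, Fin.append_right]
      rw [hιb, hw2]
  refine ⟨fun i => (w i).1, hw1, spz_comp hg.spz f hfa hfb, fun D0 h => ?_⟩
  have h1 := hD lp.length D0 δ p q lp rfl hg (relV_comp h f hfa hfb)
  refine h1.mono ?_
  exact Finset.single_le_sum (f := fun m => D m D0) (fun _ _ => Nat.zero_le _)
    (Finset.mem_range.2 (Nat.lt_succ_of_le hlen))

end Pool.Agent.FNR
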