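import Pool.Agent.FNR.IndB
import Pool.Agent.FNR.Multi
import Pool.Agent.FNX.Two

/-! # Linear independence over the numbers given by formulas: the density theorem -/

namespace Pool.Agent.FNR

open MvPolynomial Pool.Agent.FN Pool.Agent.FNX

/-- `z` is given by a formula of length `≤ s` in the numbers of `S` -/
def Fml (s : ℕ) (S : Set ℂ) (z : ℂ) : Prop :=
  ∃ f : List ℂ, FormS KA s S f ∧ f.length ≤ s ∧ z ∈ f

/-- numbers `u` given by the `x` and some of the `y`, linearly independent over the algebraic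
closure of the field of some of the `x`, are dependent with coefficients given by these `x` and
the other `y` -/
def Dep (s : ℕ) {k l : ℕ} (x : Fin k → ℂ) (y : Fin l → ℂ) : Prop :=
  ∃ (I : Set (Fin k)) (J : Set (Fin l)) (N : ℕ) (u w : Fin N → ℂ), N ≤ s ∧
    (∀ i, Fml s (Set.range x ∪ y '' J) (u i)) ∧ (∀ i, Fml s (x '' I ∪ y '' Jᶜ) (w i)) ∧
      LinearIndependent (aclF KA (x '' I)) u ∧ ∑ i, w i * u i = 0 ∧ w ≠ 0

theorem append_image {L : Type} {k l : ℕ} (x : Fin k → L) (y : Fin l → L) (X1 : Set (Fin k))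
    (Y1 : Set (Fin l)) :
    Fin.append x y '' (Fin.castAdd l '' X1 ∪ Fin.natAdd k '' Y1) = x '' X1 ∪ y '' Y1 := by
  rw [Set.image_union, Set.image_image, Set.image_image]
  simp only [Fin.append_left, Fin.append_right]

theorem set_image {L : Type} {n : ℕ} (q : Fin n → L) (T : Set (Fin n)) :
    {z | ∃ i ∈ T, z = q i} = q '' T := by
  ext z
  constructor
  · rintro ⟨i, hi, rfl⟩
    exact ⟨i, hi, rfl⟩
  · rintro ⟨i, hi, rfl⟩
    exact ⟨i, hi, rfl⟩

/-- one differential polynomial for all formulas -/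
theorem keyR (k l s : ℕ) : ∃ E r : ℕ, ∀ x : Fin k → ℂ,
    ∃ δ : Derivation KA ℂ ℂ, CK δ ∧ ∃ Ψ : MvPolynomial (Fin l × ℕ) ℂ, Ψ ≠ 0 ∧
      Ψ.totalDegree ≤ E ∧ (∀ v ∈ Ψ.vars, v.2 < r) ∧
        ∀ y : Fin l → ℂ, Dep s x y → eval (jet δ y) Ψ = 0 := by
  choose D hD using fun N => liftM (k + l) s (N + N)
  obtain ⟨E, r, hEr⟩ := psiV k l (∑ N ∈ Finset.range (s + 1), D N 2)
  refine ⟨E, r, fun x => ?_⟩
  have := isAlgClosed_KA
  have := countable_KA
  obtain ⟨δ, hδ, hU⟩ := exists_uni (K := KA)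
  obtain ⟨z, hz⟩ := hU k l x
  obtain ⟨Ψ, hΨ0, hΨE, hΨr, hΨ⟩ := hEr δ hδ x z hz
  refine ⟨δ, hδ, Ψ, hΨ0, hΨE, hΨr, fun y hy => ?_⟩
  have hrel : RelV δ (∑ N ∈ Finset.range (s + 1), D N 2) (Fin.append x z) (Fin.append x y) := by
    obtain ⟨I, J, N, u, w, hN, hu, hw, hli, h0, hw0⟩ := hy
    choose fu hfu hsu hzu using hu
    choose fw hfw hsw hzw using hw
    have hfu' : ∀ i, FormS KA s {z | ∃ j ∈ Fin.castAdd l '' Set.univ ∪ Fin.natAdd k '' J,
        z = Fin.append x y j} (fu i) := by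
      intro i
      rw [set_image, append_image, Set.image_univ]
      exact hfu i
    have hfw' : ∀ i, FormS KA s {z | ∃ j ∈ Fin.castAdd l '' I ∪ Fin.natAdd k '' Jᶜ,
        z = Fin.append x y j} (fw i) := by
      intro i
      rw [set_image, append_image]
      exact hfw i
    obtain ⟨V, hV, hs, hrel⟩ := hD N δ hδ _ _ (hz y)
      (Fin.append (fun _ => Fin.castAdd l '' Set.univ ∪ Fin.natAdd k '' J)
        (fun _ => Fin.castAdd l '' I ∪ Fin.natAdd k '' Jᶜ)) (Fin.append fu fw) (Fin.append u w)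
      (fun i => by
        refine Fin.addCases (fun i => ?_) (fun i => ?_) i
        · simp only [Fin.append_left]
          exact hfu' i
        · simp only [Fin.append_right]
          exact hfw' i)
      (fun i => by
        refine Fin.addCases (fun i => ?_) (fun i => ?_) i
        · simp only [Fin.append_left]
          exact hsu i
        · simp only [Fin.append_right]
          exact hsw i)
      (fun i => by
        refine Fin.addCases (fun i => ?_) (fun i => ?_) i
        · simp only [Fin.append_left]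
          exact hzu i
        · simp only [Fin.append_right]
          exact hzw i)
    let U : Fin N → ℂ := fun i => V (Fin.castAdd N i)
    let W : Fin N → ℂ := fun i => V (Fin.natAdd N i)
    have hU : ∀ i, U i ∈ acl KA (Set.range x ∪ z '' J) := by
      intro i
      have h1 := hV (Fin.castAdd N i)
      simp only [Fin.append_left] at h1
      rw [append_image, Set.image_univ] at h1
      exact h1
    have hW : ∀ i, W i ∈ acl KA (x '' I ∪ z '' Jᶜ) := by
      intro i
      have h1 := hV (Fin.natAdd N i)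
      simp only [Fin.append_right] at h1
      rwa [append_image] at h1
    -- the `U` are linearly independent
    have hsU : Spz δ (Fin.append (Fin.append x z) U) (Fin.append (Fin.append x y) u) := by
      refine spz_comp hs (Fin.append (Fin.castAdd (N + N)) fun i => Fin.natAdd (k + l)
        (Fin.castAdd N i)) (fun i => ?_) (fun i => ?_)
      · refine Fin.addCases (fun i => ?_) (fun i => ?_) i
        · simp only [Fin.append_left]
        · simp only [Fin.append_right]
          rfl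
      · refine Fin.addCases (fun i => ?_) (fun i => ?_) i
        · simp only [Fin.append_left]
        · simp only [Fin.append_right, Fin.append_left]
    have hxI : ∀ y : Fin l → ℂ, Fin.append x y '' (Fin.castAdd l '' I) = x '' I := by
      intro y
      have h6 := append_image x y I ∅
      rwa [Set.image_empty, Set.image_empty, Set.union_empty, Set.union_empty] at h6
    have hliU : LinearIndependent (aclF KA (x '' I)) U := by
      have h1 := li_transfer hsU (Fin.castAdd l '' I) (by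
        rintro _ ⟨i, -, rfl⟩
        rw [Fin.append_left, Fin.append_left])
      rw [hxI y] at h1
      exact h1 hli
    -- the `W` are not all zero
    have hW0 : W ≠ 0 := by
      intro h
      apply hw0
      funext i
      by_contra h1
      have h2 := spz_ne hs (i := Fin.natAdd (k + l) (Fin.natAdd N i)) (by
        rw [Fin.append_right, Fin.append_right]
        exact h1)
      rw [Fin.append_right] at h2
      exact h2 (congrFun h i)
    have hsum : ∑ i, W i * U i ≠ 0 := fun h =>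
      hW0 (li_gen x z hz I J U W hU hW hliU h)
    refine (hrel 2 ⟨∑ i : Fin N, X (Fin.natAdd (k + l) (Fin.natAdd N i), 0) *
      X (Fin.natAdd (k + l) (Fin.castAdd N i), 0), ?_, ?_, ?_⟩).mono ?_
    · exact Bdd.sum _ _ fun i _ => (Bdd.X _ (Nat.zero_le _) le_rfl).mul
        (Bdd.X _ (Nat.zero_le _) le_rfl)
    · rw [map_sum]
      simp only [map_mul, aeval_X]
      change ∑ i, Fin.append (Fin.append x z) V (Fin.natAdd (k + l) (Fin.natAdd N i)) *
        Fin.append (Fin.append x z) V (Fin.natAdd (k + l) (Fin.castAdd N i)) ≠ 0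
      simp only [Fin.append_right]
      exact hsum
    · rw [map_sum]
      simp only [map_mul, aeval_X]
      change ∑ i, Fin.append (Fin.append x y) (Fin.append u w)
        (Fin.natAdd (k + l) (Fin.natAdd N i)) *
          Fin.append (Fin.append x y) (Fin.append u w) (Fin.natAdd (k + l) (Fin.castAdd N i)) = 0
      simp only [Fin.append_right, Fin.append_left]
      exact h0
    · exact Finset.single_le_sum (f := fun N => D N 2) (fun _ _ => Nat.zero_le _)
        (Finset.mem_range.2 (Nat.lt_succ_of_le hN))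
  rw [← hΨ y hrel, aeval_def, Algebra.algebraMap_self, eval₂_id]

/-- the density theorem from a differential polynomial -/
theorem dens (E r l : ℕ) : ∃ C : ℕ, ∀ Bad : (Fin l → ℂ) → Prop,
    (∃ δ : Derivation KA ℂ ℂ, CK δ ∧ ∃ Ψ : MvPolynomial (Fin l × ℕ) ℂ, Ψ ≠ 0 ∧
      Ψ.totalDegree ≤ E ∧ (∀ v ∈ Ψ.vars, v.2 < r) ∧
        ∀ y : Fin l → ℂ, Bad y → eval (jet δ y) Ψ = 0) →
    ∀ (t : Fin l → ℂ) (X : ℕ), 16 ≤ X → ∀ N : Fin l → ℕ, (∀ i, X ≤ N i) →
      ({a : Fin l → ℕ | (∀ i, 1 ≤ a i ∧ a i ≤ N i) ∧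
        Bad fun i => t i + ((Real.log (a i : ℝ) : ℝ) : ℂ)}.ncard : ℝ) ≤
          C * Real.log (Real.log X) ^ C / Real.log X * ∏ i, (N i : ℝ) := by
  classical
  obtain ⟨C, m, X0, hC, hc⟩ := cntl E r l
  obtain ⟨C', hC'⟩ := conv C m X0
  refine ⟨C', fun Bad hBad t X hX N hN => ?_⟩
  obtain ⟨h1, h2⟩ := hC' X hX
  have hprod : (0 : ℝ) ≤ ∏ i, (N i : ℝ) := Finset.prod_nonneg fun i _ => Nat.cast_nonneg _
  have hbox : ∀ p : (Fin l → ℕ) → Prop,
      {a : Fin l → ℕ | (∀ i, 1 ≤ a i ∧ a i ≤ N i) ∧ p a} ⊆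
        ((Fintype.piFinset fun i => Finset.Icc 1 (N i) : Finset (Fin l → ℕ)) : Set (Fin l → ℕ)) := by
    rintro p a ⟨ha, -⟩
    rw [Finset.mem_coe, Fintype.mem_piFinset]
    exact fun i => Finset.mem_Icc.2 (ha i)
  rcases lt_or_ge X X0 with hXX | hXX
  · have h3 := Set.ncard_le_ncard (hbox fun a => Bad fun i =>
      t i + ((Real.log (a i : ℝ) : ℝ) : ℂ)) (Finset.finite_toSet _)
    rw [Set.ncard_coe_finset, Fintype.card_piFinset] at h3
    simp only [Nat.card_Icc, Nat.add_sub_cancel] at h3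
    have h4 : ({a : Fin l → ℕ | (∀ i, 1 ≤ a i ∧ a i ≤ N i) ∧
        Bad fun i => t i + ((Real.log (a i : ℝ) : ℝ) : ℂ)}.ncard : ℝ) ≤ ∏ i, (N i : ℝ) := by
      rw [← Nat.cast_prod]
      exact_mod_cast h3
    exact h4.trans (le_mul_of_one_le_left hprod (h2 hXX))
  · obtain ⟨δ, hδ, Ψ, h0, hE, hr, h⟩ := hBad
    have h3 := hc δ hδ Ψ h0 hE hr t X hXX N hN
    have h4 : ({a : Fin l → ℕ | (∀ i, 1 ≤ a i ∧ a i ≤ N i) ∧
        Bad fun i => t i + ((Real.log (a i : ℝ) : ℝ) : ℂ)}.ncard : ℝ) ≤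
        ({a : Fin l → ℕ | (∀ i, 1 ≤ a i ∧ a i ≤ N i) ∧ eval (jet δ fun i =>
          t i + ((Real.log (a i : ℝ) : ℝ) : ℂ)) Ψ = 0}.ncard : ℝ) := by
      rw [Nat.cast_le]
      exact Set.ncard_le_ncard (fun a ha => ⟨ha.1, h _ ha.2⟩)
        ((Finset.finite_toSet _).subset (hbox _))
    refine h4.trans (h3.trans ?_)
    rw [mul_comm]
    exact mul_le_mul_of_nonneg_right h1 hprod

theorem no_dep (k l s : ℕ) : ∃ C : ℕ, ∀ (x : Fin k → ℂ) (t : Fin l → ℂ) (X : ℕ), 16 ≤ X →
    ∀ N : Fin l → ℕ, (∀ i, X ≤ N i) →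
      ({a : Fin l → ℕ | (∀ i, 1 ≤ a i ∧ a i ≤ N i) ∧
        Dep s x fun i => t i + ((Real.log (a i : ℝ) : ℝ) : ℂ)}.ncard : ℝ) ≤
          C * Real.log (Real.log X) ^ C / Real.log X * ∏ i, (N i : ℝ) := by
  obtain ⟨E, r, hk⟩ := keyR k l s
  obtain ⟨C, hC⟩ := dens E r l
  exact ⟨C, fun x t X hX N hN => hC (Dep s x) (hk x) t X hX N hN⟩

end Pool.Agent.FNR
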