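import Mathlib

/-! # Algebraic closure as a closure operator -/

namespace Pool.Agent.FNR

/-- the numbers algebraic over the ring generated by `S` -/
def acl (K : Type) {L : Type} [Field K] [Field L] [Algebra K L] (S : Set L) : Set L :=
  {w | IsAlgebraic (Algebra.adjoin K S) w}

variable {K L : Type} [Field K] [Field L] [Algebra K L]

open scoped IntermediateField.algebraAdjoinAdjoin

theorem mem_acl_iff {S : Set L} {w : L} :
    w ∈ acl K S ↔ IsAlgebraic (IntermediateField.adjoin K S) w :=
  IsFractionRing.isAlgebraic_iff (Algebra.adjoin K S) (IntermediateField.adjoin K S) L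

theorem acl_eq (S : Set L) : acl K S = (AlgebraicIndependent.matroid K L).closure S := by
  rw [AlgebraicIndependent.matroid_closure_eq]
  ext w
  exact Iff.rfl

theorem subset_acl (S : Set L) : S ⊆ acl K S := by
  rw [acl_eq]
  exact Matroid.subset_closure _ _ (Set.subset_univ _)

theorem acl_mono {S T : Set L} (h : S ⊆ T) : acl K S ⊆ acl K T := by
  rw [acl_eq, acl_eq]
  exact Matroid.closure_subset_closure _ h

theorem acl_le {S T : Set L} (h : S ⊆ acl K T) : acl K S ⊆ acl K T := by
  rw [acl_eq] at h ⊢
  rw [acl_eq]
  exact Matroid.closure_subset_closure_of_subset_closure h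

theorem acl_exchange {S : Set L} {u w : L} (h : w ∈ acl K (insert u S)) (h' : w ∉ acl K S) :
    u ∈ acl K (insert w S) := by
  rw [acl_eq] at h h' ⊢
  exact Matroid.mem_closure_insert h' h

/-- the numbers algebraic over the ring generated by `S`, as a field -/
noncomputable def aclF (K : Type) {L : Type} [Field K] [Field L] [Algebra K L] (S : Set L) :
    IntermediateField K L :=
  (algebraicClosure (IntermediateField.adjoin K S) L).restrictScalars K

theorem mem_aclF {S : Set L} {w : L} : w ∈ aclF K S ↔ w ∈ acl K S := by
  rw [mem_acl_iff]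
  change w ∈ algebraicClosure (IntermediateField.adjoin K S) L ↔ _
  exact mem_algebraicClosure_iff

theorem aclF_closed {S : Set L} {w : L} (h : IsAlgebraic (aclF K S) w) : w ∈ aclF K S := by
  rw [mem_aclF, mem_acl_iff]
  have h1 : IsAlgebraic (algebraicClosure (IntermediateField.adjoin K S) L) w := h
  have h2 : Algebra.IsAlgebraic (IntermediateField.adjoin K S)
      (algebraicClosure (IntermediateField.adjoin K S) L) :=
    algebraicClosure.isAlgebraic _ L
  exact h1.restrictScalars (IntermediateField.adjoin K S)

end Pool.Agent.FNR
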