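import Pool.Agent.FNR.Lift

/-! # Formulas: lifting to the generic point, and elimination -/

namespace Pool.Agent.FNR

open MvPolynomial Pool.Agent.FN Pool.Agent.FNX

/-- one operation on `N` numbers -/
inductive Op (K : Type) (N : ℕ) : Type
  | copy (i : Fin N) : Op K N
  | const (c : K) : Op K N
  | add (i j : Fin N) : Op K N
  | mul (i j : Fin N) : Op K N
  | inv (i : Fin N) : Op K N
  | root (i : Fin N) (m n : ℕ) : Op K N

/-- `w` is a value of the operation at `v` -/
def Op.Sem {K L : Type} [Field K] [Field L] [Algebra K L] {N : ℕ} :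
    Op K N → (Fin N → L) → L → Prop
  | .copy i, v, w => w = v i
  | .const c, _, w => w = algebraMap K L c
  | .add i j, v, w => w = v i + v j
  | .mul i j, v, w => w = v i * v j
  | .inv i, v, w => v i ≠ 0 ∧ w = (v i)⁻¹
  | .root i m n, v, w => v i ≠ 0 ∧ n ≠ 0 ∧ w ^ n = v i ^ m

theorem spz_poly {K L : Type} [Field K] [Field L] [Algebra K L] {δ : Derivation K L L} {N : ℕ}
    {a b : Fin N → L} (hab : Spz δ a b) (f : MvPolynomial (Fin N) K) :
    Spz δ (Fin.snoc a (aeval a f) : Fin (N + 1) → L) (Fin.snoc b (aeval b f)) := by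
  intro Φ hΦ
  obtain ⟨D, hD⟩ := exists_bdd Φ
  obtain ⟨Φ', -, h⟩ := subst_last D f.totalDegree f le_rfl Φ hD
  rw [← h] at hΦ ⊢
  exact hab Φ' hΦ

/-- the polynomial of an operation -/
theorem Op.poly {K : Type} [Field K] {N : ℕ} (o : Op K N) :
    (∃ f : MvPolynomial (Fin N) K, f.totalDegree ≤ 2 ∧ ∀ {L : Type} [Field L] [Algebra K L]
      (v : Fin N → L) (w : L), o.Sem v w ↔ w = aeval v f) ∨
      (∃ i, o = .inv i) ∨ ∃ i m n, o = .root i m n := by
  have hX1 : ∀ j : Fin N, (X j : MvPolynomial (Fin N) K).totalDegree ≤ 1 :=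
    fun j => by rw [totalDegree_X]
  cases o with
  | copy i =>
    refine Or.inl ⟨X i, (hX1 i).trans (by norm_num), fun {L} _ _ v w => ?_⟩
    rw [aeval_X]
    rfl
  | const c =>
    refine Or.inl ⟨C c, by rw [totalDegree_C]; exact Nat.zero_le _, fun {L} _ _ v w => ?_⟩
    rw [aeval_C]
    rfl
  | add i j =>
    refine Or.inl ⟨X i + X j, (totalDegree_add _ _).trans (max_le ((hX1 i).trans (by norm_num))
      ((hX1 j).trans (by norm_num))), fun {L} _ _ v w => ?_⟩
    rw [map_add, aeval_X, aeval_X]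
    rfl
  | mul i j =>
    refine Or.inl ⟨X i * X j, (totalDegree_mul _ _).trans (by
      have := hX1 i
      have := hX1 j
      omega), fun {L} _ _ v w => ?_⟩
    rw [map_mul, aeval_X, aeval_X]
    rfl
  | inv i => exact Or.inr (Or.inl ⟨i, rfl⟩)
  | root i m n => exact Or.inr (Or.inr ⟨i, m, n, rfl⟩)

/-- lifting one operation -/
theorem lift_op {K L : Type} [Field K] [CharZero K] [Field L] [IsAlgClosed L] [Algebra K L]
    (δ : Derivation K L L) {N : ℕ} {a b : Fin N → L} (hab : Spz δ a b) (o : Op K N) {β : L}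
    (h : o.Sem b β) :
    ∃ α : L, o.Sem a α ∧ Spz δ (Fin.snoc a α : Fin (N + 1) → L) (Fin.snoc b β) := by
  rcases o.poly with ⟨f, -, hf⟩ | ⟨i, rfl⟩ | ⟨i, m, n, rfl⟩
  · rw [hf] at h
    rw [h]
    exact ⟨aeval a f, (hf a _).2 rfl, spz_poly hab f⟩
  · obtain ⟨h1, rfl⟩ := h
    exact ⟨(a i)⁻¹, ⟨spz_ne hab h1, rfl⟩, spz_inv δ a b hab i h1⟩
  · obtain ⟨h1, h2, h3⟩ := h
    obtain ⟨α, hα, hs⟩ := spz_root δ a b hab i m n h2 h1 β h3
    exact ⟨α, ⟨spz_ne hab h1, h2, hα⟩, hs⟩

/-- eliminating one operation -/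
theorem elim_op (D N : ℕ) : ∃ D' : ℕ, ∀ {K L : Type} [Field K] [Field L] [Algebra K L]
    [CharZero K] (δ : Derivation K L L), CK δ → ∀ (a b : Fin N → L) (α β : L),
    Spz δ (Fin.snoc a α : Fin (N + 1) → L) (Fin.snoc b β) → ∀ o : Op K N, o.Sem a α →
      o.Sem b β → RelV δ D (Fin.snoc a α : Fin (N + 1) → L) (Fin.snoc b β) →
        RelV δ D' a b := by
  obtain ⟨D1, h1⟩ := rel_polyV D 2 N
  obtain ⟨D2, h2⟩ := rel_root D N
  refine ⟨max D1 D2, fun {K L} _ _ _ _ δ hδ a b α β hs o hoa hob h => ?_⟩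
  rcases o.poly with ⟨f, hfd, hf⟩ | ⟨i, rfl⟩ | ⟨i, m, n, rfl⟩
  · rw [hf] at hoa hob
    rw [hoa, hob] at h
    exact (h1 δ a b f hfd h).mono (le_max_left _ _)
  · obtain ⟨ha, rfl⟩ := hoa
    obtain ⟨hb, rfl⟩ := hob
    exact (h2 δ hδ a b _ _ hs i (-1) ha hb (inv_ne_zero hb) (der_inv δ ha) (der_inv δ hb) h).mono
      (le_max_right _ _)
  · obtain ⟨ha, hn, hα⟩ := hoa
    obtain ⟨hb, -, hβ⟩ := hob
    have hβ0 : β ≠ 0 := by
      rintro rfl
      rw [zero_pow hn] at hβ
      exact pow_ne_zero m hb hβ.symm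
    exact (h2 δ hδ a b _ _ hs i ((m : K) / n) ha hb hβ0 (der_root δ ha hn hα)
      (der_root δ hb hn hβ) h).mono (le_max_right _ _)

/-- the values at the generic point -/
def valA {L : Type} {n : ℕ} (p : Fin n → L) : (l : List (L × L)) → Fin (n + l.length) → L
  | [] => p
  | w :: l => (Fin.snoc (valA p l) w.1 : Fin (n + l.length + 1) → L)

/-- the values at the special point -/
def valB {L : Type} {n : ℕ} (q : Fin n → L) : (l : List (L × L)) → Fin (n + l.length) → L
  | [] => q
  | w :: l => (Fin.snoc (valB q l) w.2 : Fin (n + l.length + 1) → L)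

/-- a list of pairs obtained by the same operations at `p` and at `q` -/
inductive Good {K L : Type} [Field K] [Field L] [Algebra K L] (δ : Derivation K L L) {n : ℕ}
    (p q : Fin n → L) : List (L × L) → Prop
  | nil : Spz δ p q → Good δ p q []
  | cons (w : L × L) (l : List (L × L)) (o : Op K (n + l.length)) : Good δ p q l →
      o.Sem (valA p l) w.1 → o.Sem (valB q l) w.2 →
        Spz δ (valA p (w :: l)) (valB q (w :: l)) → Good δ p q (w :: l)

theorem Good.spz {K L : Type} [Field K] [Field L] [Algebra K L] {δ : Derivation K L L} {n : ℕ}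
    {p q : Fin n → L} {l : List (L × L)} (h : Good δ p q l) : Spz δ (valA p l) (valB q l) := by
  cases h with
  | nil h => exact h
  | cons w l o _ _ _ h => exact h

theorem elim_list (n m : ℕ) : ∀ D : ℕ, ∃ D' : ℕ, ∀ {K L : Type} [Field K] [Field L] [Algebra K L]
    [CharZero K] (δ : Derivation K L L), CK δ → ∀ (p q : Fin n → L) (l : List (L × L)),
      l.length = m → Good δ p q l → RelV δ D (valA p l) (valB q l) → RelV δ D' p q := by
  induction m with
  | zero =>
    intro D
    refine ⟨D, fun {K L} _ _ _ _ δ hδ p q l hl hg h => ?_⟩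
    obtain rfl := List.length_eq_zero_iff.1 hl
    exact h
  | succ m ih =>
    intro D
    obtain ⟨D1, h1⟩ := elim_op D (n + m)
    obtain ⟨D2, h2⟩ := ih D1
    refine ⟨D2, fun {K L} _ _ _ _ δ hδ p q l hl hg h => ?_⟩
    cases hg with
    | nil _ => simp at hl
    | cons w l o hg hA hB hs =>
      obtain rfl : l.length = m := by simpa using hl
      exact h2 δ hδ p q l rfl hg (h1 δ hδ _ _ _ _ hs o hA hB h)

/-- positions -/
theorem val_start {L : Type} {n : ℕ} (p q : Fin n → L) (l : List (L × L)) (i : Fin n) :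
    ∃ j, valA p l j = p i ∧ valB q l j = q i := by
  induction l with
  | nil => exact ⟨i, rfl, rfl⟩
  | cons w l ih =>
    obtain ⟨j, h1, h2⟩ := ih
    refine ⟨Fin.castSucc j, ?_, ?_⟩
    · rw [← h1]
      exact Fin.snoc_castSucc (α := fun _ => L) w.1 (valA p l) j
    · rw [← h2]
      exact Fin.snoc_castSucc (α := fun _ => L) w.2 (valB q l) j

theorem val_mem {L : Type} {n : ℕ} (p q : Fin n → L) (l : List (L × L)) {w : L × L} (h : w ∈ l) :
    ∃ j, valA p l j = w.1 ∧ valB q l j = w.2 := by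
  induction l with
  | nil => simp at h
  | cons u l ih =>
    rcases List.mem_cons.1 h with rfl | h1
    · exact ⟨Fin.last _, Fin.snoc_last (α := fun _ => L) _ _, Fin.snoc_last (α := fun _ => L) _ _⟩
    · obtain ⟨j, h2, h3⟩ := ih h1
      refine ⟨Fin.castSucc j, ?_, ?_⟩
      · rw [← h2]
        exact Fin.snoc_castSucc (α := fun _ => L) u.1 (valA p l) j
      · rw [← h3]
        exact Fin.snoc_castSucc (α := fun _ => L) u.2 (valB q l) j

/-- the formulas in the numbers of a set: lists of values -/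
inductive FormK (K : Type) {L : Type} [Field K] [Field L] [Algebra K L] (S : Set L) :
    List L → Prop
  | nil : FormK K S []
  | var (z : L) (l : List L) : z ∈ S → FormK K S l → FormK K S (z :: l)
  | const (c : K) (l : List L) : FormK K S l → FormK K S (algebraMap K L c :: l)
  | add (u v : L) (l : List L) : u ∈ l → v ∈ l → FormK K S l → FormK K S ((u + v) :: l)
  | mul (u v : L) (l : List L) : u ∈ l → v ∈ l → FormK K S l → FormK K S ((u * v) :: l)
  | inv (u : L) (l : List L) : u ∈ l → FormK K S l → FormK K S (u⁻¹ :: l)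
  | root (u w : L) (m n : ℕ) (l : List L) : u ∈ l → u ≠ 0 → n ≠ 0 → w ^ n = u ^ m →
      FormK K S l → FormK K S (w :: l)

/-- lifting a formula -/
theorem lift_form {K L : Type} [Field K] [CharZero K] [Field L] [IsAlgClosed L] [Algebra K L]
    (δ : Derivation K L L) {n : ℕ} {p q : Fin n → L} (hpq : Spz δ p q) (T : Set (Fin n))
    (A : Subfield L) (hK : ∀ c : K, algebraMap K L c ∈ A) (hT : ∀ i ∈ T, p i ∈ A)
    (hA : ∀ (w : L) (n : ℕ), n ≠ 0 → w ^ n ∈ A → w ∈ A) {l : List L}
    (h : FormK K {z | ∃ i ∈ T, z = q i} l) :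
    ∃ lp : List (L × L), lp.map Prod.snd = l ∧ Good δ p q lp ∧ ∀ w ∈ lp, w.1 ∈ A := by
  -- one more entry
  have step : ∀ (lp : List (L × L)), Good δ p q lp → (∀ w ∈ lp, w.1 ∈ A) →
      ∀ (o : Op K (n + lp.length)) (β : L), o.Sem (valB q lp) β →
        (∀ α, o.Sem (valA p lp) α → α ∈ A) →
          ∃ lp' : List (L × L), lp'.map Prod.snd = β :: lp.map Prod.snd ∧ Good δ p q lp' ∧
            ∀ w ∈ lp', w.1 ∈ A := by
    intro lp hg hlp o β hβ hα
    obtain ⟨α, h1, h2⟩ := lift_op δ hg.spz o hβ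
    refine ⟨(α, β) :: lp, rfl, Good.cons (α, β) lp o hg h1 hβ h2, ?_⟩
    intro w hw
    rcases List.mem_cons.1 hw with rfl | hw
    · exact hα _ h1
    · exact hlp w hw
  -- the entry of an element of the list
  have entry : ∀ (lp : List (L × L)), (∀ w ∈ lp, w.1 ∈ A) → ∀ u ∈ lp.map Prod.snd,
      ∃ j, valA p lp j ∈ A ∧ valB q lp j = u := by
    intro lp hlp u hu
    obtain ⟨w, hw, rfl⟩ := List.mem_map.1 hu
    obtain ⟨j, h1, h2⟩ := val_mem p q lp hw
    exact ⟨j, by rw [h1]; exact hlp w hw, h2⟩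
  induction h with
  | nil => exact ⟨[], rfl, Good.nil hpq, fun w hw => absurd hw (List.not_mem_nil)⟩
  | var z l hz _ ih =>
    obtain ⟨lp, rfl, hg, hlp⟩ := ih
    obtain ⟨i, hi, rfl⟩ := hz
    obtain ⟨j, h1, h2⟩ := val_start p q lp i
    refine step lp hg hlp (.copy j) (q i) h2.symm fun α hα => ?_
    have hα' : α = valA p lp j := hα
    rw [hα', h1]
    exact hT i hi
  | const c l _ ih =>
    obtain ⟨lp, rfl, hg, hlp⟩ := ih
    refine step lp hg hlp (.const c) _ rfl fun α hα => ?_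
    have hα' : α = algebraMap K L c := hα
    rw [hα']
    exact hK c
  | add u v l hu hv _ ih =>
    obtain ⟨lp, rfl, hg, hlp⟩ := ih
    obtain ⟨i, hi, rfl⟩ := entry lp hlp u hu
    obtain ⟨j, hj, rfl⟩ := entry lp hlp v hv
    refine step lp hg hlp (.add i j) _ rfl fun α hα => ?_
    have hα' : α = valA p lp i + valA p lp j := hα
    rw [hα']
    exact A.add_mem hi hj
  | mul u v l hu hv _ ih =>
    obtain ⟨lp, rfl, hg, hlp⟩ := ih
    obtain ⟨i, hi, rfl⟩ := entry lp hlp u hu
    obtain ⟨j, hj, rfl⟩ := entry lp hlp v hv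
    refine step lp hg hlp (.mul i j) _ rfl fun α hα => ?_
    have hα' : α = valA p lp i * valA p lp j := hα
    rw [hα']
    exact A.mul_mem hi hj
  | inv u l hu _ ih =>
    obtain ⟨lp, rfl, hg, hlp⟩ := ih
    obtain ⟨i, hi, rfl⟩ := entry lp hlp u hu
    by_cases h0 : valB q lp i = 0
    · refine step lp hg hlp (.const 0) _ ?_ fun α hα => ?_
      · change (valB q lp i)⁻¹ = algebraMap K L 0
        rw [h0, inv_zero, map_zero]
      · have hα' : α = algebraMap K L 0 := hα
        rw [hα']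
        exact hK 0
    · refine step lp hg hlp (.inv i) _ ⟨h0, rfl⟩ fun α hα => ?_
      obtain ⟨-, rfl⟩ := hα
      exact A.inv_mem hi
  | root u w m n l hu hu0 hn hw _ ih =>
    obtain ⟨lp, rfl, hg, hlp⟩ := ih
    obtain ⟨i, hi, rfl⟩ := entry lp hlp u hu
    refine step lp hg hlp (.root i m n) w ⟨hu0, hn, hw⟩ fun α hα => ?_
    obtain ⟨-, -, h3⟩ := hα
    exact hA α n hn (by rw [h3]; exact A.pow_mem hi m)

/-- no formula: the relation between the jets -/
theorem chain (n s : ℕ) : ∃ D : ℕ, ∀ {K L : Type} [Field K] [CharZero K] [Field L] [IsAlgClosed L]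
    [Algebra K L] (δ : Derivation K L L), CK δ → ∀ (p q : Fin n → L), Spz δ p q →
      ∀ (T : Set (Fin n)) (j : Fin n),
        ¬ IsAlgebraic (IntermediateField.adjoin K (p '' T)) (p j) →
          ∀ l : List L, FormK K {z | ∃ i ∈ T, z = q i} l → l.length ≤ s → q j ∈ l →
            RelV δ D p q := by
  choose D hD using fun m => elim_list n m 1
  refine ⟨∑ m ∈ Finset.range (s + 1), D m, ?_⟩
  intro K L _ _ _ _ _ δ hδ p q hpq T j hj l hl hs hql
  let F : IntermediateField K L := IntermediateField.adjoin K (p '' T)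
  let A : Subfield L := (algebraicClosure F L).toSubfield
  have hAm : ∀ w : L, w ∈ A ↔ IsAlgebraic F w := fun w => by
    change w ∈ algebraicClosure F L ↔ _
    exact mem_algebraicClosure_iff
  obtain ⟨lp, hlp, hg, hA⟩ := lift_form δ hpq T A
    (fun c => by
      rw [hAm]
      have h1 : algebraMap K L c = algebraMap F L (algebraMap K F c) := rfl
      rw [h1]
      exact isAlgebraic_algebraMap _)
    (fun i hi => by
      rw [hAm]
      exact isAlgebraic_algebraMap
        (⟨p i, IntermediateField.subset_adjoin K _ ⟨i, hi, rfl⟩⟩ : F))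
    (fun w n hn hw => by
      rw [hAm] at hw ⊢
      exact hw.of_pow (Nat.pos_of_ne_zero hn)) hl
  have hlen : lp.length ≤ s := by
    have h1 := congrArg List.length hlp
    rw [List.length_map] at h1
    rw [h1]
    exact hs
  -- the entry
  rw [← hlp] at hql
  obtain ⟨w, hw, hwq⟩ := List.mem_map.1 hql
  obtain ⟨i, hi1, hi2⟩ := val_mem p q lp hw
  obtain ⟨i', hi1', hi2'⟩ := val_start p q lp j
  have hne : w.1 ≠ p j := by
    intro h
    apply hj
    rw [← h]
    exact (hAm _).1 (hA w hw)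
  have h1 : RelV δ 1 (valA p lp) (valB q lp) := by
    refine ⟨X (i, 0) - X (i', 0), (Bdd.X _ (Nat.zero_le _) le_rfl).sub
      (Bdd.X _ (Nat.zero_le _) le_rfl), ?_, ?_⟩
    · rw [map_sub, aeval_X, aeval_X]
      change valA p lp i - valA p lp i' ≠ 0
      rw [hi1, hi1']
      exact sub_ne_zero.2 hne
    · rw [map_sub, aeval_X, aeval_X]
      change valB q lp i - valB q lp i' = 0
      rw [hi2, hi2', hwq, sub_self]
  refine (hD lp.length δ hδ p q lp rfl hg h1).mono ?_
  exact Finset.single_le_sum (f := D) (fun _ _ => Nat.zero_le _)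
    (Finset.mem_range.2 (Nat.lt_succ_of_le hlen))

end Pool.Agent.FNR
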