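import Pool.Agent.DIk.LinA

set_option autoImplicit false

/-! # Linear disjointness over an algebraically closed field -/

namespace Pool.Agent.FNR

open Pool.Agent.DIk (common_den exists_tb)

/-- as `lin_any`, with the `x j` among the `u i` -/
theorem lin_any2 {K L : Type} [Field K] [IsAlgClosed K] [Field L] [Algebra K L] {N : ℕ}
    (u : Fin N → L) (hu : LinearIndependent K u) :
    ∃ (k E : ℕ) (x : Fin k → L), AlgebraicIndependent K x ∧ (∀ j, x j ∈ Set.range u) ∧
      ∀ r : Fin N → L, r ≠ 0 → ∑ i, r i * u i = 0 →
        ∃ P : MvPolynomial (Fin k) L, P ≠ 0 ∧ P.totalDegree ≤ E ∧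
          (∀ m, P.coeff m ∈ Algebra.adjoin K (Set.range r)) ∧
            MvPolynomial.aeval x P = 0 := by
  classical
  obtain ⟨s, hs, halg0⟩ := exists_tb (K := K) u
  let k := Fintype.card s
  let eq := Fintype.equivFin s
  let x : Fin k → L := fun j => u (eq.symm j)
  have hx : AlgebraicIndependent K x := hs.comp _ eq.symm.injective
  have hrange : Set.range x = u '' s := by
    ext z
    constructor
    · rintro ⟨j, rfl⟩
      exact ⟨_, (eq.symm j).2, rfl⟩
    · rintro ⟨i, hi, rfl⟩
      exact ⟨eq ⟨i, hi⟩, by
        change u (eq.symm (eq ⟨i, hi⟩)) = u i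
        rw [Equiv.symm_apply_apply]⟩
  let F : IntermediateField K L := IntermediateField.adjoin K (Set.range x)
  have halg : ∀ i, IsIntegral F (u i) := by
    intro i
    rw [← isAlgebraic_iff_isIntegral]
    have h1 := halg0 i
    rw [← hrange] at h1
    obtain ⟨p, hp0, hp⟩ := h1
    have hle : Algebra.adjoin K (Set.range x) ≤ F.toSubalgebra :=
      IntermediateField.algebra_adjoin_le_adjoin K _
    let ι : Algebra.adjoin K (Set.range x) →+* F := (Subalgebra.inclusion hle).toRingHom
    have hι : Function.Injective ι := Subalgebra.inclusion_injective hle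
    refine ⟨p.map ι, (Polynomial.map_ne_zero_iff hι).2 hp0, ?_⟩
    rw [Polynomial.aeval_def, Polynomial.eval₂_map]
    rw [Polynomial.aeval_def] at hp
    exact hp
  let M : IntermediateField F L := IntermediateField.adjoin F (Set.range u)
  have hfd : FiniteDimensional F M := by
    have : Finite (Set.range u) := Set.finite_range u
    exact IntermediateField.finiteDimensional_adjoin (by
      rintro _ ⟨i, rfl⟩
      exact halg i)
  let w : Fin N → M := fun i => ⟨u i, IntermediateField.subset_adjoin F _ ⟨i, rfl⟩⟩
  let n := Module.finrank F M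
  let b : Module.Basis (Fin n) F M := Module.finBasis F M
  let U : Fin N → Matrix (Fin n) (Fin n) F := fun i => Algebra.leftMulMatrix b (w i)
  have hU : ∀ i c, ∑ a, (U i a c : L) * (b a : L) = u i * (b c : L) := by
    intro i c
    have h1 : w i * b c = ∑ a, (Algebra.leftMulMatrix b (w i)) a c • b a := by
      conv_lhs => rw [← b.sum_repr (w i * b c)]
      refine Finset.sum_congr rfl fun a _ => ?_
      rw [Algebra.leftMulMatrix_eq_repr_mul]
    have h2 := congrArg (fun z : M => (z : L)) h1
    change u i * (b c : L) = _ at h2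
    rw [h2]
    push_cast
    rfl
  obtain ⟨D, hD, hP⟩ := common_den x (fun p : Fin N × Fin n × Fin n => (U p.1 p.2.1 p.2.2 : L))
    (fun p => (U p.1 p.2.1 p.2.2).2)
  choose Pu hPu using hP
  let G : MvPolynomial (Fin k) (MvPolynomial (Fin N) K) :=
    Matrix.det (Matrix.of fun a c => ∑ i, MvPolynomial.C (MvPolynomial.X i : MvPolynomial (Fin N) K)
      * MvPolynomial.map MvPolynomial.C (Pu (i, a, c)))
  let T : (Fin N → L) → MvPolynomial (Fin k) L := fun r =>
    MvPolynomial.map (MvPolynomial.aeval (R := K) r).toRingHom G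
  have hT : ∀ r : Fin N → L, MvPolynomial.aeval x (T r) =
      Matrix.det (Matrix.of fun a c : Fin n => MvPolynomial.aeval x D * ∑ i, r i * (U i a c : L)) := by
    intro r
    let θ : MvPolynomial (Fin k) (MvPolynomial (Fin N) K) →+* L :=
      ((MvPolynomial.aeval (R := L) x).toRingHom).comp
        (MvPolynomial.map (MvPolynomial.aeval (R := K) r).toRingHom)
    have h1 : MvPolynomial.aeval x (T r) = θ G := rfl
    rw [h1]
    change θ (Matrix.det _) = _
    rw [RingHom.map_det]
    congr 1
    ext a c
    rw [RingHom.mapMatrix_apply, Matrix.map_apply, Matrix.of_apply, Matrix.of_apply, map_sum,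
      Finset.mul_sum]
    refine Finset.sum_congr rfl fun i _ => ?_
    rw [map_mul]
    have h2 : θ (MvPolynomial.C (MvPolynomial.X i)) = r i := by
      change MvPolynomial.aeval x (MvPolynomial.map _ (MvPolynomial.C (MvPolynomial.X i))) = _
      rw [MvPolynomial.map_C, MvPolynomial.aeval_C]
      change MvPolynomial.aeval r (MvPolynomial.X i) = _
      rw [MvPolynomial.aeval_X]
    have h3 : θ (MvPolynomial.map MvPolynomial.C (Pu (i, a, c))) =
        MvPolynomial.aeval x (Pu (i, a, c)) := by
      change MvPolynomial.aeval x (MvPolynomial.map _ (MvPolynomial.map _ _)) = _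
      rw [MvPolynomial.map_map]
      have h4 : (MvPolynomial.aeval (R := K) r).toRingHom.comp MvPolynomial.C = algebraMap K L := by
        ext c
        change MvPolynomial.aeval r (MvPolynomial.C c) = _
        rw [MvPolynomial.aeval_C]
      rw [h4, MvPolynomial.aeval_map_algebraMap]
    rw [h2, h3, hPu]
    ring
  -- at the points of `K ^ N`
  have hK : ∀ τ : Fin N → K, (∀ m, MvPolynomial.aeval τ (G.coeff m) = 0) → τ = 0 := by
    intro τ h0
    have h1 : T (fun i => algebraMap K L (τ i)) = 0 := by
      ext m
      rw [MvPolynomial.coeff_map, MvPolynomial.coeff_zero]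
      change MvPolynomial.aeval (fun i => algebraMap K L (τ i)) (G.coeff m) = 0
      have h2 := MvPolynomial.aeval_algebraMap_apply L τ (G.coeff m)
      have h3 : MvPolynomial.aeval (fun i => algebraMap K L (τ i)) (G.coeff m) =
        algebraMap K L (MvPolynomial.aeval τ (G.coeff m)) := h2
      rw [h3, h0, map_zero]
    have h2 := hT (fun i => algebraMap K L (τ i))
    rw [h1, map_zero] at h2
    let z : M := ∑ i, algebraMap K F (τ i) • w i
    have h3 : (Matrix.of fun a c : Fin n => MvPolynomial.aeval x D *
        ∑ i, algebraMap K L (τ i) * (U i a c : L)) =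
        MvPolynomial.aeval x D • (Algebra.leftMulMatrix b z).map (algebraMap F L) := by
      ext a c
      rw [Matrix.smul_apply, Matrix.map_apply, Matrix.of_apply, smul_eq_mul]
      congr 1
      have h4 : Algebra.leftMulMatrix b z = ∑ i, algebraMap K F (τ i) • U i := by
        change Algebra.leftMulMatrix b (∑ i, algebraMap K F (τ i) • w i) = _
        rw [map_sum]
        refine Finset.sum_congr rfl fun i _ => ?_
        rw [map_smul]
      rw [h4, Matrix.sum_apply, map_sum]
      refine Finset.sum_congr rfl fun i _ => ?_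
      rw [Matrix.smul_apply, smul_eq_mul, map_mul]
      rfl
    rw [h3, Matrix.det_smul, Fintype.card_fin] at h2
    have h5 : (Algebra.leftMulMatrix b z).map (algebraMap F L) =
      (algebraMap F L).mapMatrix (Algebra.leftMulMatrix b z) := rfl
    rw [h5, ← RingHom.map_det, ← Algebra.norm_eq_matrix_det] at h2
    have h6 : algebraMap F L (Algebra.norm F z) = 0 := by
      rcases mul_eq_zero.1 h2.symm with h | h
      · exact absurd h (pow_ne_zero _ hD)
      · exact h
    have h7 : z = 0 := by
      rw [← Algebra.norm_eq_zero_iff (R := F)]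
      exact (map_eq_zero_iff _ (algebraMap F L).injective).1 h6
    have h8 : ∑ i, τ i • u i = 0 := by
      have h9 := congrArg (fun z : M => (z : L)) h7
      change ((∑ i, algebraMap K F (τ i) • w i : M) : L) = 0 at h9
      rw [← h9]
      push_cast
      refine Finset.sum_congr rfl fun i _ => ?_
      rw [Algebra.smul_def]
      rfl
    exact funext fun i => Fintype.linearIndependent_iff.1 hu τ h8 i
  -- the Nullstellensatz
  have hN : ∀ r : Fin N → L, r ≠ 0 → T r ≠ 0 := by
    intro r hr h0
    apply hr
    let I : Ideal (MvPolynomial (Fin N) K) := Ideal.span (Set.range fun m => G.coeff m)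
    have h1 : MvPolynomial.zeroLocus K I ⊆ {0} := by
      intro τ hτ
      exact hK τ fun m => hτ _ (Ideal.subset_span ⟨m, rfl⟩)
    have h2 : I ≤ RingHom.ker (MvPolynomial.aeval (R := K) r) := by
      rw [Ideal.span_le]
      rintro _ ⟨m, rfl⟩
      change MvPolynomial.aeval r (G.coeff m) = 0
      have h3 := congrArg (MvPolynomial.coeff m) h0
      rw [MvPolynomial.coeff_map, MvPolynomial.coeff_zero] at h3
      exact h3
    funext i
    have h3 : (MvPolynomial.X i : MvPolynomial (Fin N) K) ∈ I.radical := by
      rw [← MvPolynomial.vanishingIdeal_zeroLocus_eq_radical (K := K)]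
      intro τ hτ
      rw [h1 hτ, MvPolynomial.aeval_X]
      rfl
    obtain ⟨q, hq⟩ := h3
    have h4 := h2 hq
    rw [RingHom.mem_ker, map_pow, MvPolynomial.aeval_X] at h4
    by_contra h5
    exact pow_ne_zero q h5 h4
  refine ⟨k, G.totalDegree, x, hx, fun j => ⟨_, rfl⟩, fun r hr hru => ⟨T r, hN r hr, ?_, ?_, ?_⟩⟩
  · exact Finset.sup_mono (MvPolynomial.support_map_subset _ _)
  · intro m
    rw [MvPolynomial.coeff_map, Algebra.adjoin_range_eq_range_aeval]
    exact ⟨_, rfl⟩
  · rw [hT, ← Matrix.exists_vecMul_eq_zero_iff]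
    refine ⟨fun a => (b a : L), ?_, ?_⟩
    · intro h0
      have h1 : 0 < n := Module.finrank_pos
      have h2 := congrFun h0 ⟨0, h1⟩
      exact b.ne_zero ⟨0, h1⟩ (Subtype.ext h2)
    · funext c
      rw [Pi.zero_apply]
      change ∑ a, (b a : L) * (MvPolynomial.aeval x D * ∑ i, r i * (U i a c : L)) = 0
      have h1 : ∀ a, (b a : L) * (MvPolynomial.aeval x D * ∑ i, r i * (U i a c : L)) =
          ∑ i, MvPolynomial.aeval x D * r i * ((U i a c : L) * (b a : L)) := by
        intro a
        rw [Finset.mul_sum, Finset.mul_sum]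
        refine Finset.sum_congr rfl fun i _ => ?_
        ring
      rw [Finset.sum_congr rfl fun a _ => h1 a, Finset.sum_comm]
      have h2 : ∀ i, ∑ a, MvPolynomial.aeval x D * r i * ((U i a c : L) * (b a : L)) =
          (MvPolynomial.aeval x D * (b c : L)) * (r i * u i) := by
        intro i
        rw [← Finset.mul_sum, hU]
        ring
      rw [Finset.sum_congr rfl fun i _ => h2 i, ← Finset.mul_sum, hru, mul_zero]

/-- `x` and `z` may be exchanged -/
theorem alg_swap {K L : Type} [Field K] [Field L] [Algebra K L] {κ ι : Type} {x : κ → L}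
    {z : ι → L} (hx : AlgebraicIndependent K x)
    (hz : AlgebraicIndependent (Algebra.adjoin K (Set.range x)) z) :
    AlgebraicIndependent (Algebra.adjoin K (Set.range z)) x := by
  have h1 : AlgebraicIndependent K (Sum.elim z x) := AlgebraicIndependent.sumElim_iff.2 ⟨hx, hz⟩
  have h2 : AlgebraicIndependent K (Sum.elim x z) := by
    have h3 := h1.comp (Equiv.sumComm κ ι) (Equiv.injective _)
    have h4 : (Sum.elim z x ∘ ⇑(Equiv.sumComm κ ι)) = Sum.elim x z := by
      funext i
      rcases i with i | i <;> rfl
    rwa [h4] at h3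
  exact (AlgebraicIndependent.sumElim_iff.1 h2).2

/-- numbers which are linearly independent over `K` stay so over the numbers which are algebraic
over `K (z)` -/
theorem alg_disj {K L : Type} [Field K] [IsAlgClosed K] [Field L] [Algebra K L] {n : ℕ}
    {ι : Type} (u : Fin n → L) (hu : LinearIndependent K u) (z : ι → L)
    (hz : AlgebraicIndependent (Algebra.adjoin K (Set.range u)) z) (W : Fin n → L)
    (hW : ∀ i, IsAlgebraic (Algebra.adjoin K (Set.range z)) (W i)) (h : ∑ i, W i * u i = 0) :
    W = 0 := by
  by_contra hW0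
  obtain ⟨k, E, x, hx, hxu, key⟩ := lin_any2 u hu
  obtain ⟨P, hP0, -, hPc, hPx⟩ := key W hW0 h
  -- `z` is independent over `K[x]`
  have hle : Algebra.adjoin K (Set.range x) ≤ Algebra.adjoin K (Set.range u) := by
    refine Algebra.adjoin_mono ?_
    rintro _ ⟨j, rfl⟩
    exact hxu j
  have hzx : AlgebraicIndependent (Algebra.adjoin K (Set.range x)) z := by
    let i1 : Algebra (Algebra.adjoin K (Set.range x)) (Algebra.adjoin K (Set.range u)) :=
      (Subalgebra.inclusion hle).toRingHom.toAlgebra
    have i2 : IsScalarTower (Algebra.adjoin K (Set.range x)) (Algebra.adjoin K (Set.range u)) L :=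
      IsScalarTower.of_algebraMap_eq fun _ => rfl
    exact AlgebraicIndependent.restrictScalars (K := Algebra.adjoin K (Set.range u))
      (Subalgebra.inclusion_injective hle) hz
  have hxz := alg_swap hx hzx
  -- and over the algebraic closure of `K[z]`
  let S := Subalgebra.algebraicClosure (Algebra.adjoin K (Set.range z)) L
  have hS : ∀ c : L, c ∈ S ↔ IsAlgebraic (Algebra.adjoin K (Set.range z)) c := fun c => Iff.rfl
  have hSalg : Algebra.IsAlgebraic (Algebra.adjoin K (Set.range z)) S := by
    refine ⟨fun c => ?_⟩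
    have h1 := (hS c).1 c.2
    exact (isAlgebraic_algebraMap_iff (A := L) Subtype.val_injective).1 h1
  have hxS : AlgebraicIndependent S x := hxz.extendScalars S
  have hmem : ∀ m, P.coeff m ∈ S := by
    intro m
    have h1 : Algebra.adjoin K (Set.range W) ≤ S.restrictScalars K := by
      rw [Algebra.adjoin_le_iff]
      rintro _ ⟨i, rfl⟩
      exact hW i
    exact h1 (hPc m)
  obtain ⟨P', rfl⟩ : ∃ P' : MvPolynomial (Fin k) S, MvPolynomial.map (algebraMap S L) P' = P := by
    refine ⟨∑ m ∈ P.support, MvPolynomial.monomial m ⟨P.coeff m, hmem m⟩, ?_⟩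
    rw [map_sum]
    conv_rhs => rw [P.as_sum]
    refine Finset.sum_congr rfl fun m _ => ?_
    rw [MvPolynomial.map_monomial]
    rfl
  rw [MvPolynomial.aeval_map_algebraMap] at hPx
  have h1 : P' = 0 := (algebraicIndependent_iff.1 hxS) P' hPx
  exact hP0 (by rw [h1, map_zero])

end Pool.Agent.FNR
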