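import Pool.Agent.FNR.Chain
import Pool.Agent.FNA.Alg
import Pool.Agent.FNR.Acl

/-! # Formulas with roots of any order and zeros of polynomials of bounded degree -/

namespace Pool.Agent.FNR

open MvPolynomial Pool.Agent.FN Pool.Agent.FNX

/-- one more entry: a specialization, and relations can be pushed down -/
def Stp {K L : Type} [Field K] [Field L] [Algebra K L] (δ : Derivation K L L) (E : ℕ → ℕ) {N : ℕ}
    (a b : Fin N → L) (α β : L) : Prop :=
  Spz δ (Fin.snoc a α : Fin (N + 1) → L) (Fin.snoc b β) ∧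
    ∀ D : ℕ, RelV δ D (Fin.snoc a α : Fin (N + 1) → L) (Fin.snoc b β) → RelV δ (E D) a b

theorem Stp.mono {K L : Type} [Field K] [Field L] [Algebra K L] {δ : Derivation K L L}
    {E E' : ℕ → ℕ} (hE : ∀ D, E D ≤ E' D) {N : ℕ} {a b : Fin N → L} {α β : L}
    (h : Stp δ E a b α β) : Stp δ E' a b α β :=
  ⟨h.1, fun D hD => (h.2 D hD).mono (hE D)⟩

/-- all the operations -/
theorem exists_stp (s N : ℕ) : ∃ E : ℕ → ℕ, ∀ {K L : Type} [Field K] [CharZero K] [Field L]
    [IsAlgClosed L] [Algebra K L] (δ : Derivation K L L), CK δ → ∀ (a b : Fin N → L), Spz δ a b →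
      (∀ f : MvPolynomial (Fin N) K, f.totalDegree ≤ 2 → Stp δ E a b (aeval a f) (aeval b f)) ∧
      (∀ i, b i ≠ 0 → Stp δ E a b (a i)⁻¹ (b i)⁻¹) ∧
      (∀ (i : Fin N) (m n : ℕ) (β : L), b i ≠ 0 → n ≠ 0 → β ^ n = b i ^ m →
        ∃ α : L, α ^ n = a i ^ m ∧ Stp δ E a b α β) ∧
      (∀ d : ℕ, d ≤ s → ∀ c : Fin (d + 1) → Fin N, (∃ j, b (c j) ≠ 0) →
        ∀ β : L, ∑ j, b (c j) * β ^ (j : ℕ) = 0 →
          ∃ α : L, IsAlgebraic (Algebra.adjoin K (Set.range fun j => a (c j))) α ∧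
            Stp δ E a b α β) := by
  choose E1 h1 using fun D => elim_op D N
  choose E2 h2 using fun D => rel_polyV D 2 N
  obtain ⟨E3, h3⟩ := Pool.Agent.FNA.spz_alg s N
  refine ⟨fun D => max (E1 D) (max (E2 D) (E3 D)), ?_⟩
  intro K L _ _ _ _ _ δ hδ a b hab
  refine ⟨fun f hf => ⟨spz_poly hab f, fun D hD => ?_⟩, fun i hi => ⟨spz_inv δ a b hab i hi,
    fun D hD => ?_⟩, fun i m n β hi hn hβ => ?_, fun d hd c hc β hβ => ?_⟩
  · exact (h2 D δ a b f hf hD).mono ((le_max_left _ _).trans (le_max_right _ _))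
  · exact (h1 D δ hδ a b _ _ (spz_inv δ a b hab i hi) (.inv i) ⟨spz_ne hab hi, rfl⟩ ⟨hi, rfl⟩
      hD).mono (le_max_left _ _)
  · obtain ⟨α, hα, hs⟩ := spz_root δ a b hab i m n hn hi β hβ
    exact ⟨α, hα, hs, fun D hD => (h1 D δ hδ a b _ _ hs (.root i m n)
      ⟨spz_ne hab hi, hn, hα⟩ ⟨hi, hn, hβ⟩ hD).mono (le_max_left _ _)⟩
  · obtain ⟨α, hα, hs, hD⟩ := h3 δ a b hab d hd c hc β hβ
    exact ⟨α, hα, hs, fun D h => (hD D h).mono ((le_max_right _ _).trans (le_max_right _ _))⟩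

/-- a list of pairs obtained by steps -/
inductive Gd {K L : Type} [Field K] [Field L] [Algebra K L] (δ : Derivation K L L)
    (E : ℕ → ℕ → ℕ) {n : ℕ} (p q : Fin n → L) : List (L × L) → Prop
  | nil : Spz δ p q → Gd δ E p q []
  | cons (w : L × L) (l : List (L × L)) : Gd δ E p q l →
      Stp δ (E (n + l.length)) (valA p l) (valB q l) w.1 w.2 → Gd δ E p q (w :: l)

theorem Gd.spz {K L : Type} [Field K] [Field L] [Algebra K L] {δ : Derivation K L L}
    {E : ℕ → ℕ → ℕ} {n : ℕ} {p q : Fin n → L} {l : List (L × L)} (h : Gd δ E p q l) :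
    Spz δ (valA p l) (valB q l) := by
  cases h with
  | nil h => exact h
  | cons w l _ h => exact h.1

theorem elim_gd (E : ℕ → ℕ → ℕ) (n m : ℕ) : ∀ D : ℕ, ∃ D' : ℕ, ∀ {K L : Type} [Field K]
    [Field L] [Algebra K L] (δ : Derivation K L L) (p q : Fin n → L) (l : List (L × L)),
      l.length = m → Gd δ E p q l → RelV δ D (valA p l) (valB q l) → RelV δ D' p q := by
  induction m with
  | zero =>
    intro D
    refine ⟨D, fun {K L} _ _ _ δ p q l hl hg h => ?_⟩
    obtain rfl := List.length_eq_zero_iff.1 hl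
    exact h
  | succ m ih =>
    intro D
    obtain ⟨D2, h2⟩ := ih (E (n + m) D)
    refine ⟨D2, fun {K L} _ _ _ δ p q l hl hg h => ?_⟩
    cases hg with
    | nil _ => simp at hl
    | cons w l hg hs =>
      obtain rfl : l.length = m := by simpa using hl
      exact h2 δ p q l rfl hg (hs.2 D h)

/-- the formulas in the numbers of a set `S`, as lists of values; `s` bounds the degree of the
algebraic equations -/
inductive FormS (K : Type) {L : Type} [Field K] [Field L] [Algebra K L] (s : ℕ) (S : Set L) :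
    List L → Prop
  | nil : FormS K s S []
  | var (z : L) (l : List L) : z ∈ S → FormS K s S l → FormS K s S (z :: l)
  | const (c : K) (l : List L) : FormS K s S l → FormS K s S (algebraMap K L c :: l)
  | add (u v : L) (l : List L) : u ∈ l → v ∈ l → FormS K s S l → FormS K s S ((u + v) :: l)
  | mul (u v : L) (l : List L) : u ∈ l → v ∈ l → FormS K s S l → FormS K s S ((u * v) :: l)
  | inv (u : L) (l : List L) : u ∈ l → FormS K s S l → FormS K s S (u⁻¹ :: l)
  | root (u w : L) (m n : ℕ) (l : List L) : u ∈ l → u ≠ 0 → n ≠ 0 → w ^ n = u ^ m →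
      FormS K s S l → FormS K s S (w :: l)
  | alg (w : L) (d : ℕ) (c : Fin (d + 1) → L) (l : List L) : d ≤ s → (∀ j, c j ∈ l) →
      (∃ j, c j ≠ 0) → ∑ j, c j * w ^ (j : ℕ) = 0 → FormS K s S l → FormS K s S (w :: l)

/-- lifting a formula, on top of a list -/
theorem lift_formS {K L : Type} [Field K] [CharZero K] [Field L] [IsAlgClosed L] [Algebra K L]
    (δ : Derivation K L L) (s : ℕ) (E : ℕ → ℕ → ℕ)
    (hE : ∀ (N : ℕ) (a b : Fin N → L), Spz δ a b →
      (∀ f : MvPolynomial (Fin N) K, f.totalDegree ≤ 2 →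
        Stp δ (E N) a b (aeval a f) (aeval b f)) ∧
      (∀ i, b i ≠ 0 → Stp δ (E N) a b (a i)⁻¹ (b i)⁻¹) ∧
      (∀ (i : Fin N) (m n : ℕ) (β : L), b i ≠ 0 → n ≠ 0 → β ^ n = b i ^ m →
        ∃ α : L, α ^ n = a i ^ m ∧ Stp δ (E N) a b α β) ∧
      (∀ d : ℕ, d ≤ s → ∀ c : Fin (d + 1) → Fin N, (∃ j, b (c j) ≠ 0) →
        ∀ β : L, ∑ j, b (c j) * β ^ (j : ℕ) = 0 →
          ∃ α : L, IsAlgebraic (Algebra.adjoin K (Set.range fun j => a (c j))) α ∧
            Stp δ (E N) a b α β))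
    {n : ℕ} {p q : Fin n → L} (lp0 : List (L × L)) (h0 : Gd δ E p q lp0) (T : Set (Fin n))
    {l : List L} (h : FormS K s {z | ∃ i ∈ T, z = q i} l) :
    ∃ lp : List (L × L), lp.map Prod.snd = l ∧ Gd δ E p q (lp ++ lp0) ∧
      ∀ w ∈ lp, w.1 ∈ aclF K (p '' T) := by
  let F : IntermediateField K L := aclF K (p '' T)
  have hT : ∀ i ∈ T, p i ∈ F := fun i hi => mem_aclF.2 (subset_acl _ ⟨i, hi, rfl⟩)
  have hF : ∀ w : L, IsAlgebraic F w → w ∈ F := fun w hw => aclF_closed hw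
  -- one more entry
  have step : ∀ (lp : List (L × L)), Gd δ E p q (lp ++ lp0) → (∀ w ∈ lp, w.1 ∈ F) →
      ∀ (α β : L), Stp δ (E (n + (lp ++ lp0).length)) (valA p (lp ++ lp0))
        (valB q (lp ++ lp0)) α β → α ∈ F →
          ∃ lp' : List (L × L), lp'.map Prod.snd = β :: lp.map Prod.snd ∧
            Gd δ E p q (lp' ++ lp0) ∧ ∀ w ∈ lp', w.1 ∈ F := by
    intro lp hg hlp α β hs hα
    refine ⟨(α, β) :: lp, rfl, Gd.cons (α, β) (lp ++ lp0) hg hs, ?_⟩
    intro w hw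
    rcases List.mem_cons.1 hw with rfl | hw
    · exact hα
    · exact hlp w hw
  -- the entry of an element of the list
  have entry : ∀ (lp : List (L × L)), (∀ w ∈ lp, w.1 ∈ F) → ∀ u ∈ lp.map Prod.snd,
      ∃ j, valA p (lp ++ lp0) j ∈ F ∧ valB q (lp ++ lp0) j = u := by
    intro lp hlp u hu
    obtain ⟨w, hw, rfl⟩ := List.mem_map.1 hu
    obtain ⟨j, h1, h2⟩ := val_mem p q (lp ++ lp0) (List.mem_append_left lp0 hw)
    exact ⟨j, by rw [h1]; exact hlp w hw, h2⟩
  have hX1 : ∀ (N : ℕ) (j : Fin N), (X j : MvPolynomial (Fin N) K).totalDegree ≤ 1 :=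
    fun N j => by rw [totalDegree_X]
  induction h with
  | nil => exact ⟨[], rfl, h0, fun w hw => absurd hw (List.not_mem_nil)⟩
  | var z l hz _ ih =>
    obtain ⟨lp, rfl, hg, hlp⟩ := ih
    obtain ⟨i, hi, rfl⟩ := hz
    obtain ⟨j, h1, h2⟩ := val_start p q (lp ++ lp0) i
    have h3 := (hE _ _ _ hg.spz).1 (X j) ((hX1 _ j).trans (by norm_num))
    rw [aeval_X, aeval_X, h1, h2] at h3
    exact step lp hg hlp _ _ h3 (hT i hi)
  | const c l _ ih =>
    obtain ⟨lp, rfl, hg, hlp⟩ := ih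
    have h3 := (hE _ _ _ hg.spz).1 (C c) (by rw [totalDegree_C]; exact Nat.zero_le _)
    rw [aeval_C, aeval_C] at h3
    exact step lp hg hlp _ _ h3 (F.algebraMap_mem c)
  | add u v l hu hv _ ih =>
    obtain ⟨lp, rfl, hg, hlp⟩ := ih
    obtain ⟨i, hi, rfl⟩ := entry lp hlp u hu
    obtain ⟨j, hj, rfl⟩ := entry lp hlp v hv
    have h3 := (hE _ _ _ hg.spz).1 (X i + X j) ((totalDegree_add _ _).trans
      (max_le ((hX1 _ i).trans (by norm_num)) ((hX1 _ j).trans (by norm_num))))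
    rw [map_add, map_add, aeval_X, aeval_X, aeval_X, aeval_X] at h3
    exact step lp hg hlp _ _ h3 (F.add_mem hi hj)
  | mul u v l hu hv _ ih =>
    obtain ⟨lp, rfl, hg, hlp⟩ := ih
    obtain ⟨i, hi, rfl⟩ := entry lp hlp u hu
    obtain ⟨j, hj, rfl⟩ := entry lp hlp v hv
    have h3 := (hE _ _ _ hg.spz).1 (X i * X j) ((totalDegree_mul _ _).trans (by
      have := hX1 _ i
      have := hX1 _ j
      omega))
    rw [map_mul, map_mul, aeval_X, aeval_X, aeval_X, aeval_X] at h3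
    exact step lp hg hlp _ _ h3 (F.mul_mem hi hj)
  | inv u l hu _ ih =>
    obtain ⟨lp, rfl, hg, hlp⟩ := ih
    obtain ⟨i, hi, rfl⟩ := entry lp hlp u hu
    by_cases h0 : valB q (lp ++ lp0) i = 0
    · have h3 := (hE _ _ _ hg.spz).1 (C 0) (by rw [totalDegree_C]; exact Nat.zero_le _)
      rw [aeval_C, aeval_C, map_zero] at h3
      rw [h0, inv_zero]
      exact step lp hg hlp _ _ h3 F.zero_mem
    · exact step lp hg hlp _ _ ((hE _ _ _ hg.spz).2.1 i h0) (F.inv_mem hi)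
  | root u w m n l hu hu0 hn hw _ ih =>
    obtain ⟨lp, rfl, hg, hlp⟩ := ih
    obtain ⟨i, hi, rfl⟩ := entry lp hlp u hu
    obtain ⟨α, hα, h3⟩ := (hE _ _ _ hg.spz).2.2.1 i m n w hu0 hn hw
    have h5 : IsAlgebraic F (α ^ n) := by
      rw [hα]
      exact isAlgebraic_algebraMap (⟨_, pow_mem hi m⟩ : F)
    exact step lp hg hlp _ _ h3 (hF α (h5.of_pow (Nat.pos_of_ne_zero hn)))
  | alg w d c l hd hc hc0 hw _ ih =>
    obtain ⟨lp, rfl, hg, hlp⟩ := ih
    choose i hi hic using fun j => entry lp hlp (c j) (hc j)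
    have hc0' : ∃ j, valB q (lp ++ lp0) (i j) ≠ 0 := by
      obtain ⟨j, hj⟩ := hc0
      exact ⟨j, by rw [hic]; exact hj⟩
    obtain ⟨α, hα, h3⟩ := (hE _ _ _ hg.spz).2.2.2 d hd i hc0' w (by
      rw [← hw]
      refine Finset.sum_congr rfl fun j _ => ?_
      rw [hic])
    refine step lp hg hlp _ _ h3 (mem_aclF.2 ?_)
    have hα' : α ∈ acl K (Set.range fun j => valA p (lp ++ lp0) (i j)) := hα
    refine acl_le ?_ hα'
    rintro _ ⟨j, rfl⟩
    exact mem_aclF.1 (hi j)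

/-- restriction of the indices -/
theorem spz_comp {K L : Type} [Field K] [Field L] [Algebra K L] {δ : Derivation K L L} {N M : ℕ}
    {a b : Fin N → L} (h : Spz δ a b) {a' b' : Fin M → L} (ι : Fin M → Fin N)
    (ha : ∀ i, a' i = a (ι i)) (hb : ∀ i, b' i = b (ι i)) : Spz δ a' b' := by
  intro Φ hΦ
  have key : ∀ (c : Fin N → L) (c' : Fin M → L), (∀ i, c' i = c (ι i)) →
      aeval (jet δ c) (rename (fun v : Fin M × ℕ => (ι v.1, v.2)) Φ) = aeval (jet δ c') Φ := by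
    intro c c' hc
    rw [aeval_rename]
    congr 1
    congr 1
    funext v
    change δ^[v.2] (c (ι v.1)) = δ^[v.2] (c' v.1)
    rw [hc]
  rw [← key a a' ha] at hΦ
  rw [← key b b' hb]
  exact h _ hΦ

/-- two formulas with a common value -/
theorem chain2 (n s : ℕ) : ∃ D : ℕ, ∀ {K L : Type} [Field K] [CharZero K] [Field L]
    [IsAlgClosed L] [Algebra K L] (δ : Derivation K L L), CK δ → ∀ (p q : Fin n → L), Spz δ p q →
      ∀ (T1 T2 : Set (Fin n)) (l1 l2 : List L) (z : L),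
        FormS K s {z | ∃ i ∈ T1, z = q i} l1 → l1.length ≤ s → z ∈ l1 →
        FormS K s {z | ∃ i ∈ T2, z = q i} l2 → l2.length ≤ s → z ∈ l2 →
          RelV δ D p q ∨ ∃ W : L, W ∈ acl K (p '' T1) ∧ W ∈ acl K (p '' T2) ∧
            Spz δ (Fin.snoc p W : Fin (n + 1) → L) (Fin.snoc q z) := by
  choose E hE using fun N => exists_stp s N
  choose D hD using fun m => elim_gd E n m 1
  refine ⟨∑ m ∈ Finset.range (s + s + 1), D m, ?_⟩
  intro K L _ _ _ _ _ δ hδ p q hpq T1 T2 l1 l2 z hl1 hs1 hz1 hl2 hs2 hz2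
  obtain ⟨lp1, hlp1, hg1, hA1⟩ := lift_formS δ s E (fun N a b hab => hE N δ hδ a b hab) []
    (Gd.nil hpq) T1 hl1
  rw [List.append_nil] at hg1
  obtain ⟨lp2, hlp2, hg, hA2⟩ := lift_formS δ s E (fun N a b hab => hE N δ hδ a b hab) lp1
    hg1 T2 hl2
  have hlen : (lp2 ++ lp1).length ≤ s + s := by
    have h1 := congrArg List.length hlp1
    have h2 := congrArg List.length hlp2
    rw [List.length_map] at h1 h2
    rw [List.length_append]
    omega
  -- the entries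
  rw [← hlp1] at hz1
  rw [← hlp2] at hz2
  obtain ⟨w1, hw1, hwz1⟩ := List.mem_map.1 hz1
  obtain ⟨w2, hw2, hwz2⟩ := List.mem_map.1 hz2
  obtain ⟨i1, ha1, hb1⟩ := val_mem p q (lp2 ++ lp1) (List.mem_append_right lp2 hw1)
  obtain ⟨i2, ha2, hb2⟩ := val_mem p q (lp2 ++ lp1) (List.mem_append_left lp1 hw2)
  by_cases hne : w1.1 = w2.1
  · right
    refine ⟨w1.1, mem_aclF.1 (hA1 w1 hw1), ?_, ?_⟩
    · rw [hne]
      exact mem_aclF.1 (hA2 w2 hw2)
    · choose ι hιa hιb using fun j => val_start p q (lp2 ++ lp1) j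
      refine spz_comp hg.spz (Fin.snoc ι i1 : Fin (n + 1) → Fin (n + (lp2 ++ lp1).length))
        (fun i => ?_) (fun i => ?_)
      · refine Fin.lastCases ?_ (fun i => ?_) i
        · simp only [Fin.snoc_last]
          exact ha1.symm
        · simp only [Fin.snoc_castSucc]
          exact (hιa i).symm
      · refine Fin.lastCases ?_ (fun i => ?_) i
        · simp only [Fin.snoc_last]
          rw [hb1, hwz1]
        · simp only [Fin.snoc_castSucc]
          exact (hιb i).symm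
  · left
    have h1 : RelV δ 1 (valA p (lp2 ++ lp1)) (valB q (lp2 ++ lp1)) := by
      refine ⟨X (i1, 0) - X (i2, 0), (Bdd.X _ (Nat.zero_le _) le_rfl).sub
        (Bdd.X _ (Nat.zero_le _) le_rfl), ?_, ?_⟩
      · rw [map_sub, aeval_X, aeval_X]
        change valA p (lp2 ++ lp1) i1 - valA p (lp2 ++ lp1) i2 ≠ 0
        rw [ha1, ha2]
        exact sub_ne_zero.2 hne
      · rw [map_sub, aeval_X, aeval_X]
        change valB q (lp2 ++ lp1) i1 - valB q (lp2 ++ lp1) i2 = 0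
        rw [hb1, hb2, hwz1, hwz2, sub_self]
    refine (hD (lp2 ++ lp1).length δ p q (lp2 ++ lp1) rfl hg h1).mono ?_
    exact Finset.single_le_sum (f := D) (fun _ _ => Nat.zero_le _)
      (Finset.mem_range.2 (Nat.lt_succ_of_le hlen))

end Pool.Agent.FNR
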