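import Pool.Agent.FNR.Form

/-! # The generic point -/

namespace Pool.Agent.FNR

open MvPolynomial Pool.Agent.FN Pool.Agent.FNX

/-- common denominators -/
theorem common_den {K L : Type} [Field K] [Field L] [Algebra K L] {σ ι : Type} [Finite ι]
    (x : σ → L) (f : ι → L) (hf : ∀ i, f i ∈ IntermediateField.adjoin K (Set.range x)) :
    ∃ D : MvPolynomial σ K, aeval x D ≠ 0 ∧
      ∀ i, ∃ P : MvPolynomial σ K, aeval x P = aeval x D * f i := by
  classical
  have := Fintype.ofFinite ι
  have h1 : ∀ i, ∃ r s : MvPolynomial σ K, aeval x s ≠ 0 ∧ aeval x r = aeval x s * f i := by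
    intro i
    obtain ⟨r, s, hrs⟩ := (IntermediateField.mem_adjoin_range_iff K x (f i)).1 (hf i)
    by_cases hs : aeval x s = 0
    · refine ⟨0, 1, ?_, ?_⟩
      · rw [map_one]
        exact one_ne_zero
      · rw [hrs, hs, div_zero, mul_zero, map_zero]
    · exact ⟨r, s, hs, by rw [hrs, mul_div_cancel₀ _ hs]⟩
  choose r s hs hrs using h1
  refine ⟨∏ i, s i, ?_, fun i => ⟨r i * ∏ j ∈ Finset.univ.erase i, s j, ?_⟩⟩
  · rw [map_prod]
    exact Finset.prod_ne_zero_iff.2 fun i _ => hs i
  · rw [map_mul, hrs, ← Finset.mul_prod_erase Finset.univ s (Finset.mem_univ i), map_mul]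
    ring

/-- an algebraic number over the field generated by `v` -/
theorem alg_poly {K L : Type} [Field K] [Field L] [Algebra K L] {σ : Type} (v : σ → L) (w : L)
    (h : IsAlgebraic (IntermediateField.adjoin K (Set.range v)) w) :
    ∃ P : Polynomial (MvPolynomial σ K), (∃ r, aeval v (P.coeff r) ≠ 0) ∧
      P.eval₂ (aeval (R := K) v).toRingHom w = 0 := by
  obtain ⟨Q, hQ0, hQ⟩ := h
  obtain ⟨D, hD, hP⟩ := common_den (K := K) v
    (fun r : Fin (Q.natDegree + 1) => ((Q.coeff r : IntermediateField.adjoin K (Set.range v)) : L))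
    fun r => (Q.coeff r).2
  choose P hP using hP
  refine ⟨∑ r : Fin (Q.natDegree + 1), Polynomial.monomial (r : ℕ) (P r), ⟨Q.natDegree, ?_⟩, ?_⟩
  · rw [Polynomial.finsetSum_coeff, Finset.sum_eq_single (Fin.last Q.natDegree)]
    · rw [Fin.val_last, Polynomial.coeff_monomial, if_pos rfl, hP]
      refine mul_ne_zero hD ?_
      rw [Fin.val_last, Polynomial.coeff_natDegree]
      intro h
      exact hQ0 (Polynomial.leadingCoeff_eq_zero.1 (Subtype.ext h))
    · intro r _ hr
      rw [Polynomial.coeff_monomial, if_neg]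
      intro h
      exact hr (Fin.ext h)
    · intro h
      exact absurd (Finset.mem_univ _) h
  · rw [Polynomial.eval₂_finsetSum]
    have h1 : ∀ r : Fin (Q.natDegree + 1), Polynomial.eval₂ (aeval (R := K) v).toRingHom w
        (Polynomial.monomial (r : ℕ) (P r)) = aeval v D *
          (((Q.coeff r : IntermediateField.adjoin K (Set.range v)) : L) * w ^ (r : ℕ)) := by
      intro r
      rw [Polynomial.eval₂_monomial, ← mul_assoc, ← hP]
      rfl
    rw [Finset.sum_congr rfl fun r _ => h1 r, ← Finset.mul_sum]
    have h2 : ∑ r : Fin (Q.natDegree + 1),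
        ((Q.coeff r : IntermediateField.adjoin K (Set.range v)) : L) * w ^ (r : ℕ) = 0 := by
      rw [← hQ, Polynomial.aeval_eq_sum_range, Finset.sum_range]
      refine Finset.sum_congr rfl fun r _ => ?_
      rw [Algebra.smul_def]
      rfl
    rw [h2, mul_zero]

/-- the relations of a generic point hold at every point -/
theorem gen_rel {K L : Type} [Field K] [Field L] [Algebra K L] {δ : Derivation K L L} {n : ℕ}
    {p q : Fin n → L} (h : Spz δ p q) (j : Fin n)
    (P : Polynomial (MvPolynomial {i : Fin n // i ≠ j} K))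
    (hP : P.eval₂ (aeval (R := K) fun i : {i : Fin n // i ≠ j} => p i).toRingHom (p j) = 0) :
    P.eval₂ (aeval (R := K) fun i : {i : Fin n // i ≠ j} => q i).toRingHom (q j) = 0 := by
  let Φ : MvPolynomial (Fin n) K :=
    P.eval₂ (rename (R := K) (Subtype.val : {i : Fin n // i ≠ j} → Fin n)).toRingHom (X j)
  have key : ∀ r : Fin n → L, aeval r Φ =
      P.eval₂ (aeval (R := K) fun i : {i : Fin n // i ≠ j} => r i).toRingHom (r j) := by
    intro r
    have h1 := Polynomial.hom_eval₂ P
      (rename (R := K) (Subtype.val : {i : Fin n // i ≠ j} → Fin n)).toRingHom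
      (aeval (R := K) r).toRingHom (X j)
    have h2 : (aeval (R := K) r).toRingHom (X j) = r j := aeval_X r j
    have h3 : (aeval (R := K) r).toRingHom.comp
        (rename (R := K) (Subtype.val : {i : Fin n // i ≠ j} → Fin n)).toRingHom =
        (aeval (R := K) fun i : {i : Fin n // i ≠ j} => r i).toRingHom := by
      refine RingHom.ext fun f => ?_
      exact aeval_rename _ _ _
    rw [h2, h3] at h1
    exact h1
  rw [← key] at hP ⊢
  have h4 := h (up Φ) (by rw [aeval_jet_up]; exact hP)
  rwa [aeval_jet_up] at h4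

theorem image_ne {L : Type} {n : ℕ} (p : Fin n → L) (j : Fin n) :
    p '' {i | i ≠ j} = Set.range fun i : {i : Fin n // i ≠ j} => p i := by
  ext z
  constructor
  · rintro ⟨i, hi, rfl⟩
    exact ⟨⟨i, hi⟩, rfl⟩
  · rintro ⟨⟨i, hi⟩, rfl⟩
    exact ⟨i, hi, rfl⟩

theorem gen_y {K L : Type} [Field K] [Field L] [Infinite L] [Algebra K L] {δ : Derivation K L L}
    {k l : ℕ} (x : Fin k → L) (z : Fin l → L)
    (hz : ∀ y : Fin l → L, Spz δ (Fin.append x z) (Fin.append x y)) (j : Fin l) :
    ¬ IsAlgebraic (IntermediateField.adjoin K (Fin.append x z '' {i | i ≠ Fin.natAdd k j}))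
      (Fin.append x z (Fin.natAdd k j)) := by
  classical
  intro h
  rw [image_ne] at h
  obtain ⟨P, ⟨r, hr⟩, hP⟩ := alg_poly _ _ h
  have h1 : ∀ w : L, (P.map (aeval (R := K) fun i : {i : Fin (k + l) // i ≠ Fin.natAdd k j} =>
      Fin.append x z i).toRingHom).eval w = 0 := by
    intro w
    have h2 := gen_rel (hz (Function.update z j w)) (Fin.natAdd k j) P hP
    have h3 : (fun i : {i : Fin (k + l) // i ≠ Fin.natAdd k j} =>
        Fin.append x (Function.update z j w) i) = fun i : {i : Fin (k + l) // i ≠ Fin.natAdd k j} =>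
          Fin.append x z i := by
      funext ⟨i, hi⟩
      refine Fin.addCases (fun i hi => ?_) (fun i hi => ?_) i hi
      · simp only [Fin.append_left]
      · simp only [Fin.append_right]
        rw [Function.update_of_ne]
        rintro rfl
        exact hi rfl
    rw [h3, Fin.append_right, Function.update_self] at h2
    rw [Polynomial.eval_map]
    exact h2
  have h2 := Polynomial.funext (p := P.map (aeval (R := K) fun i :
    {i : Fin (k + l) // i ≠ Fin.natAdd k j} => Fin.append x z i).toRingHom) (q := 0)
    fun w => by rw [h1, Polynomial.eval_zero]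
  apply hr
  have h3 := congrArg (fun f => Polynomial.coeff f r) h2
  simp only [Polynomial.coeff_map, Polynomial.coeff_zero] at h3
  exact h3

theorem gen_y' {K L : Type} [Field K] [Field L] [Infinite L] [Algebra K L] {δ : Derivation K L L}
    {k l : ℕ} (x : Fin k → L) (z : Fin l → L)
    (hz : ∀ y : Fin l → L, Spz δ (Fin.append x z) (Fin.append x y)) (j : Fin l) :
    z j ∉ acl K (Fin.append x z '' {i | i ≠ Fin.natAdd k j}) := by
  rw [mem_acl_iff]
  have h := gen_y (K := K) x z hz j
  rwa [Fin.append_right] at h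

/-- common numbers of the closures of two sets -/
theorem gen_inter {K L : Type} [Field K] [Field L] [Infinite L] [Algebra K L]
    {δ : Derivation K L L} {k l : ℕ} (x : Fin k → L) (z : Fin l → L)
    (hz : ∀ y : Fin l → L, Spz δ (Fin.append x z) (Fin.append x y)) (X1 X2 : Set (Fin k))
    (Y1 Y2 : Set (Fin l)) (hY : Disjoint Y1 Y2) (W : L) (h1 : W ∈ acl K (x '' X1 ∪ z '' Y1))
    (h2 : W ∈ acl K (x '' X2 ∪ z '' Y2)) : W ∈ acl K (x '' X1) := by
  classical
  have key : ∀ Y : Finset (Fin l), (∀ i ∈ Y, i ∉ Y2) → W ∈ acl K (x '' X1 ∪ z '' (Y : Set (Fin l))) →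
      W ∈ acl K (x '' X1) := by
    intro Y
    induction Y using Finset.induction_on with
    | empty =>
      intro _ h
      rwa [Finset.coe_empty, Set.image_empty, Set.union_empty] at h
    | insert j Y hj ih =>
      intro hd h
      have hins : x '' X1 ∪ z '' ((insert j Y : Finset (Fin l)) : Set (Fin l)) =
          insert (z j) (x '' X1 ∪ z '' (Y : Set (Fin l))) := by
        rw [Finset.coe_insert, Set.image_insert_eq, Set.union_insert]
      rw [hins] at h
      by_cases hW : W ∈ acl K (x '' X1 ∪ z '' (Y : Set (Fin l)))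
      · exact ih (fun i hi => hd i (Finset.mem_insert_of_mem hi)) hW
      · exfalso
        have h3 := acl_exchange h hW
        refine gen_y' x z hz j (acl_le ?_ h3)
        have hx : ∀ i : Fin k, x i ∈ Fin.append x z '' {i | i ≠ Fin.natAdd k j} := by
          intro i
          refine ⟨Fin.castAdd l i, ?_, Fin.append_left x z i⟩
          intro h
          have h1 := congrArg Fin.val h
          rw [Fin.val_castAdd, Fin.val_natAdd] at h1
          have := i.2
          omega
        have hzi : ∀ i : Fin l, i ≠ j → z i ∈ Fin.append x z '' {i | i ≠ Fin.natAdd k j} := by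
          intro i hi
          exact ⟨Fin.natAdd k i, fun h => hi (Fin.natAdd_injective _ _ h),
            Fin.append_right x z i⟩
        intro u hu
        rcases Set.mem_insert_iff.1 hu with rfl | hu
        · refine acl_mono ?_ h2
          rintro _ (⟨i, -, rfl⟩ | ⟨i, hi, rfl⟩)
          · exact hx i
          · refine hzi i ?_
            rintro rfl
            exact hd i (Finset.mem_insert_self i Y) hi
        · refine subset_acl _ ?_
          rcases hu with ⟨i, -, rfl⟩ | ⟨i, hi, rfl⟩
          · exact hx i
          · refine hzi i ?_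
            rintro rfl
            exact hj (Finset.mem_coe.1 hi)
  refine key Y1.toFinset (fun i hi h => ?_) ?_
  · exact Set.disjoint_left.1 hY (Set.mem_toFinset.1 hi) h
  · rwa [Set.coe_toFinset]

/-- the relation of an algebraic number specializes -/
theorem acl_transfer {K L : Type} [Field K] [Field L] [Algebra K L] {δ : Derivation K L L}
    {n : ℕ} {p q : Fin n → L} {W z : L}
    (h : Spz δ (Fin.snoc p W : Fin (n + 1) → L) (Fin.snoc q z)) (T : Set (Fin n))
    (hT : ∀ i ∈ T, p i = q i) (hW : W ∈ acl K (p '' T)) : z ∈ acl K (q '' T) := by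
  have him : p '' T = Set.range fun i : T => p i := by
    rw [Set.image_eq_range]
  rw [mem_acl_iff, him] at hW
  obtain ⟨P, ⟨r, hr⟩, hP⟩ := alg_poly _ _ hW
  let Φ : MvPolynomial (Fin (n + 1)) K :=
    P.eval₂ (rename (R := K) (fun i : T => Fin.castSucc (i : Fin n))).toRingHom (X (Fin.last n))
  have key : ∀ (r : Fin n → L) (w : L), aeval (Fin.snoc r w : Fin (n + 1) → L) Φ =
      P.eval₂ (aeval (R := K) fun i : T => r i).toRingHom w := by
    intro r w
    have h1 := Polynomial.hom_eval₂ P
      (rename (R := K) (fun i : T => Fin.castSucc (i : Fin n))).toRingHom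
      (aeval (R := K) (Fin.snoc r w : Fin (n + 1) → L)).toRingHom (X (Fin.last n))
    have h2 : (aeval (R := K) (Fin.snoc r w : Fin (n + 1) → L)).toRingHom (X (Fin.last n)) = w := by
      change aeval (Fin.snoc r w : Fin (n + 1) → L) (X (Fin.last n)) = w
      rw [aeval_X, Fin.snoc_last]
    have h3 : (aeval (R := K) (Fin.snoc r w : Fin (n + 1) → L)).toRingHom.comp
        (rename (R := K) (fun i : T => Fin.castSucc (i : Fin n))).toRingHom =
        (aeval (R := K) fun i : T => r i).toRingHom := by
      refine RingHom.ext fun f => ?_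
      change aeval (Fin.snoc r w : Fin (n + 1) → L) (rename _ f) = aeval (fun i : T => r i) f
      rw [aeval_rename]
      congr 1
      congr 1
      funext i
      simp only [Function.comp_apply, Fin.snoc_castSucc]
    rw [h2, h3] at h1
    exact h1
  have h4 := h (up Φ) (by rw [aeval_jet_up, key]; exact hP)
  rw [aeval_jet_up, key] at h4
  have hv : (fun i : T => q i) = fun i : T => p i := funext fun i => (hT i i.2).symm
  rw [hv] at h4
  -- over the field
  rw [mem_acl_iff]
  let F : IntermediateField K L := IntermediateField.adjoin K (q '' T)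
  have hmem : ∀ i : T, p i ∈ F := fun i => by
    rw [hT i i.2]
    exact IntermediateField.subset_adjoin K _ ⟨i, i.2, rfl⟩
  let ψ : MvPolynomial T K →ₐ[K] F := aeval fun i => (⟨p i, hmem i⟩ : F)
  have hψ : (algebraMap F L).comp ψ.toRingHom = (aeval (R := K) fun i : T => p i).toRingHom := by
    refine RingHom.ext fun f => ?_
    change F.val (aeval _ f) = aeval _ f
    rw [comp_aeval_apply]
    rfl
  refine ⟨P.map ψ.toRingHom, ?_, ?_⟩
  · intro h0
    apply hr
    have h1 := congrArg (fun f => Polynomial.coeff f r) h0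
    simp only [Polynomial.coeff_map, Polynomial.coeff_zero] at h1
    have h2 := congrArg (algebraMap F L) h1
    rw [map_zero] at h2
    have h3 := congrArg (fun f : MvPolynomial T K →+* L => f (P.coeff r)) hψ
    exact h3.symm.trans h2
  · rw [Polynomial.aeval_def, Polynomial.eval₂_map, hψ]
    exact h4

end Pool.Agent.FNR
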