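import Pool.Agent.FNR.Gen
import Pool.Agent.FNR.Disj

/-! # Linear independence at the generic point -/

namespace Pool.Agent.FNR

open MvPolynomial Pool.Agent.FN Pool.Agent.FNX

theorem alg_incl {A B L : Type} [CommRing A] [CommRing B] [Field L] [Algebra A L] [Algebra B L]
    (ι : A →+* B) (hc : (algebraMap B L).comp ι = algebraMap A L)
    (hinj : Function.Injective (algebraMap A L)) {w : L} (h : IsAlgebraic A w) :
    IsAlgebraic B w := by
  obtain ⟨P, hP0, hP⟩ := h
  have hι : Function.Injective ι := by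
    intro a b hab
    apply hinj
    rw [← hc]
    change (algebraMap B L) (ι a) = (algebraMap B L) (ι b)
    rw [hab]
  refine ⟨P.map ι, (Polynomial.map_ne_zero_iff hι).2 hP0, ?_⟩
  rw [Polynomial.aeval_def, Polynomial.eval₂_map, hc]
  rw [Polynomial.aeval_def] at hP
  exact hP

theorem acl_of {K L A : Type} [Field K] [Field L] [Algebra K L] [CommRing A] [Algebra A L]
    (hinj : Function.Injective (algebraMap A L)) {S : Set L}
    (hA : ∀ a : A, algebraMap A L a ∈ acl K S) {w : L} (h : IsAlgebraic A w) : w ∈ acl K S := by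
  rw [← mem_aclF]
  apply aclF_closed
  let ι : A →+* aclF K S := (algebraMap A L).codRestrict (aclF K S) fun a => mem_aclF.2 (hA a)
  exact alg_incl ι (RingHom.ext fun a => rfl) hinj h

theorem isAlgClosed_aclF {K L : Type} [Field K] [Field L] [IsAlgClosed L] [Algebra K L]
    (S : Set L) : IsAlgClosed (aclF K S) :=
  (algebraicClosure.isAlgClosure (IntermediateField.adjoin K S) L).isAlgClosed

/-- the ring generated over `aclF K S0` -/
theorem adjoin_acl {K L : Type} [Field K] [Field L] [Algebra K L] {S0 S T : Set L}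
    (h0 : S0 ⊆ acl K T) (h1 : S ⊆ acl K T) {w : L} (hw : w ∈ Algebra.adjoin (aclF K S0) S) :
    w ∈ acl K T := by
  rw [← mem_aclF]
  induction hw using Algebra.adjoin_induction with
  | mem x hx => exact mem_aclF.2 (h1 hx)
  | algebraMap r => exact mem_aclF.2 (acl_le h0 (mem_aclF.1 r.2))
  | add x y _ _ hx hy => exact (aclF K T).add_mem hx hy
  | mul x y _ _ hx hy => exact (aclF K T).mul_mem hx hy

theorem acl_under {K L : Type} [Field K] [Field L] [Algebra K L] {S0 S : Set L} {w : L}
    (h : w ∈ acl K (S0 ∪ S)) : IsAlgebraic (Algebra.adjoin (aclF K S0) S) w := by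
  have h' : IsAlgebraic (Algebra.adjoin K (S0 ∪ S)) w := h
  have hle : Algebra.adjoin K (S0 ∪ S) ≤ (Algebra.adjoin (aclF K S0) S).restrictScalars K := by
    rw [Algebra.adjoin_le_iff]
    rintro u (hu | hu)
    · have h1 : u ∈ aclF K S0 := mem_aclF.2 (subset_acl _ hu)
      exact (Algebra.adjoin (aclF K S0) S).algebraMap_mem ⟨u, h1⟩
    · exact Algebra.subset_adjoin hu
  let ι : Algebra.adjoin K (S0 ∪ S) →+* Algebra.adjoin (aclF K S0) S :=
    (algebraMap (Algebra.adjoin K (S0 ∪ S)) L).codRestrict (Algebra.adjoin (aclF K S0) S)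
      fun a => hle a.2
  exact alg_incl ι (RingHom.ext fun a => rfl) Subtype.val_injective h'

theorem li_gen {K L : Type} [Field K] [Field L] [IsAlgClosed L] [Algebra K L]
    {δ : Derivation K L L} {k l N : ℕ} (x : Fin k → L) (z : Fin l → L)
    (hz : ∀ y : Fin l → L, Spz δ (Fin.append x z) (Fin.append x y)) (I : Set (Fin k))
    (J : Set (Fin l)) (U W : Fin N → L) (hU : ∀ i, U i ∈ acl K (Set.range x ∪ z '' J))
    (hW : ∀ i, W i ∈ acl K (x '' I ∪ z '' Jᶜ)) (hli : LinearIndependent (aclF K (x '' I)) U)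
    (h : ∑ i, W i * U i = 0) : W = 0 := by
  classical
  have : Infinite L := IsAlgClosed.instInfinite
  have := isAlgClosed_aclF (K := K) (x '' I)
  let e := Fintype.equivFin (Jᶜ : Set (Fin l))
  let z' : Fin (Fintype.card (Jᶜ : Set (Fin l))) → L := fun j => z (e.symm j)
  have hr : Set.range z' = z '' Jᶜ := by
    ext c
    constructor
    · rintro ⟨j, rfl⟩
      exact ⟨_, (e.symm j).2, rfl⟩
    · rintro ⟨j, hj, rfl⟩
      refine ⟨e ⟨j, hj⟩, ?_⟩
      change z (e.symm (e ⟨j, hj⟩)) = z j
      rw [Equiv.symm_apply_apply]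
  refine alg_disj (K := aclF K (x '' I)) U hli z' ?_ W (fun i => ?_) h
  · refine algebraicIndependent_of_set_of_finite (∅ : Set _)
      (algebraicIndependent_empty_type_iff.2 Subtype.val_injective) ?_
    intro t _ _ i _ hi hal
    refine gen_y' (K := K) x z hz (e.symm i) ?_
    have hx : ∀ i' : Fin k, x i' ∈ Fin.append x z '' {i' | i' ≠ Fin.natAdd k (e.symm i : Fin l)} := by
      intro i'
      refine ⟨Fin.castAdd l i', ?_, Fin.append_left x z i'⟩
      intro h
      have h1 := congrArg Fin.val h
      rw [Fin.val_castAdd, Fin.val_natAdd] at h1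
      have := i'.2
      omega
    have hzi : ∀ i' : Fin l, i' ≠ (e.symm i : Fin l) →
        z i' ∈ Fin.append x z '' {i' | i' ≠ Fin.natAdd k (e.symm i : Fin l)} := by
      intro i' hi'
      exact ⟨Fin.natAdd k i', fun h => hi' (Fin.natAdd_injective _ _ h), Fin.append_right x z i'⟩
    have hU' : ∀ i', U i' ∈ acl K (Fin.append x z '' {i' | i' ≠ Fin.natAdd k (e.symm i : Fin l)}) := by
      intro i'
      refine acl_mono ?_ (hU i')
      rintro _ (⟨i', rfl⟩ | ⟨i', hi', rfl⟩)
      · exact hx i'
      · refine hzi i' ?_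
        rintro rfl
        exact (e.symm i).2 hi'
    refine acl_of (K := K) (A := Algebra.adjoin (Algebra.adjoin (aclF K (x '' I)) (Set.range U))
      (z' '' t)) Subtype.val_injective (fun a => ?_) hal
    have ha := a.2
    change (a : L) ∈ _
    generalize (a : L) = c at ha
    rw [← mem_aclF]
    induction ha using Algebra.adjoin_induction with
    | mem c hc =>
      obtain ⟨j, hj, rfl⟩ := hc
      refine mem_aclF.2 (subset_acl _ (hzi _ ?_))
      intro hij
      have h1 : e.symm j = e.symm i := Subtype.ext hij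
      rw [e.symm.injective h1] at hj
      exact hi hj
    | algebraMap r =>
      refine mem_aclF.2 (adjoin_acl ?_ ?_ r.2)
      · rintro _ ⟨i', -, rfl⟩
        exact subset_acl _ (hx i')
      · rintro _ ⟨i', rfl⟩
        exact hU' i'
    | add x y _ _ hx hy => exact (aclF K _).add_mem hx hy
    | mul x y _ _ hx hy => exact (aclF K _).mul_mem hx hy
  · rw [hr]
    exact acl_under (hW i)

end Pool.Agent.FNR
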