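import Pool.Agent.FNR.IndA

/-! # Linear independence over an algebraic closure, under specialization -/

namespace Pool.Agent.FNR

open MvPolynomial Pool.Agent.FN Pool.Agent.FNX

/-- the norm form of a tuple -/
theorem det_factor {F F' L : Type} [Field F] [CharZero F] [Field F'] [Algebra F F']
    [FiniteDimensional F F'] [Field L] [IsAlgClosed L] [Algebra F L] {N m : ℕ}
    (b : Module.Basis (Fin m) F F') (c : Fin N → F') (u : Fin N → L) :
    Matrix.det (Matrix.of fun a e : Fin m => ∑ i, u i *
      algebraMap F L (Algebra.leftMulMatrix b (c i) a e)) =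
        ∏ σ : F' →ₐ[F] L, ∑ i, u i * σ (c i) := by
  classical
  let P1 : MvPolynomial (Fin N) L := Matrix.det (Matrix.of fun a e : Fin m =>
    ∑ i, X i * C (algebraMap F L (Algebra.leftMulMatrix b (c i) a e)))
  let P2 : MvPolynomial (Fin N) L := ∏ σ : F' →ₐ[F] L, ∑ i, X i * C (σ (c i))
  have e1 : ∀ v : Fin N → L, eval v P1 = Matrix.det (Matrix.of fun a e : Fin m =>
      ∑ i, v i * algebraMap F L (Algebra.leftMulMatrix b (c i) a e)) := by
    intro v
    change eval v (Matrix.det _) = _
    rw [RingHom.map_det]
    congr 1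
    ext a e
    rw [RingHom.mapMatrix_apply, Matrix.map_apply, Matrix.of_apply, Matrix.of_apply, map_sum]
    refine Finset.sum_congr rfl fun i _ => ?_
    rw [map_mul, eval_X, eval_C]
  have e2 : ∀ v : Fin N → L, eval v P2 = ∏ σ : F' →ₐ[F] L, ∑ i, v i * σ (c i) := by
    intro v
    change eval v (∏ σ : F' →ₐ[F] L, ∑ i, X i * C (σ (c i))) = _
    rw [map_prod]
    refine Finset.prod_congr rfl fun σ _ => ?_
    rw [map_sum]
    refine Finset.sum_congr rfl fun i _ => ?_
    rw [map_mul, eval_X, eval_C]
  have h : P1 = P2 := by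
    have hinf : Infinite F := inferInstance
    refine funext_set (fun _ => Set.range (algebraMap F L))
      (fun _ => Set.infinite_range_of_injective (algebraMap F L).injective) fun v hv => ?_
    choose τ hτ using fun i => hv i (Set.mem_univ i)
    rw [e1, e2]
    have h1 := Algebra.norm_eq_prod_embeddings F L (∑ i, τ i • c i)
    rw [Algebra.norm_eq_matrix_det b, RingHom.map_det] at h1
    have h2 : (algebraMap F L).mapMatrix (Algebra.leftMulMatrix b (∑ i, τ i • c i)) =
        Matrix.of fun a e : Fin m => ∑ i, v i *
          algebraMap F L (Algebra.leftMulMatrix b (c i) a e) := by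
      ext a e
      rw [RingHom.mapMatrix_apply, Matrix.map_apply, Matrix.of_apply, map_sum, Matrix.sum_apply,
        map_sum]
      refine Finset.sum_congr rfl fun i _ => ?_
      rw [map_smul, Matrix.smul_apply, smul_eq_mul, map_mul, hτ]
    rw [h2] at h1
    rw [h1]
    refine Finset.prod_congr rfl fun σ _ => ?_
    rw [map_sum]
    refine Finset.sum_congr rfl fun i _ => ?_
    rw [map_smul, Algebra.smul_def, hτ]
  rw [← e1, ← e2, h]

theorem li_transfer {K L : Type} [Field K] [CharZero K] [Field L] [IsAlgClosed L] [Algebra K L]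
    {δ : Derivation K L L} {n N : ℕ} {p q : Fin n → L} {U u : Fin N → L}
    (h : Spz δ (Fin.append p U) (Fin.append q u)) (T : Set (Fin n)) (hT : ∀ i ∈ T, p i = q i)
    (hu : LinearIndependent (aclF K (q '' T)) u) : LinearIndependent (aclF K (q '' T)) U := by
  classical
  have hset : q '' T = Set.range fun i : T => p i := by
    rw [Set.image_eq_range]
    congr 1
    funext i
    exact (hT i i.2).symm
  rw [hset] at hu ⊢
  rw [Fintype.linearIndependent_iff] at hu ⊢
  intro c hc
  let p' : T → L := fun i => p i
  let F : IntermediateField K L := IntermediateField.adjoin K (Set.range p')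
  have halg : ∀ i, IsIntegral F (c i : L) := by
    intro i
    rw [← isAlgebraic_iff_isIntegral]
    have h1 : (c i : L) ∈ acl K (Set.range p') := mem_aclF.1 (c i).2
    exact mem_acl_iff.1 h1
  let M : IntermediateField F L := IntermediateField.adjoin F (Set.range fun i => (c i : L))
  have hfd : FiniteDimensional F M := by
    have : Finite (Set.range fun i => (c i : L)) := Set.finite_range _
    exact IntermediateField.finiteDimensional_adjoin (by
      rintro _ ⟨i, rfl⟩
      exact halg i)
  let w : Fin N → M := fun i => ⟨c i, IntermediateField.subset_adjoin F _ ⟨i, rfl⟩⟩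
  let m := Module.finrank F M
  let b : Module.Basis (Fin m) F M := Module.finBasis F M
  let Q : Fin N → Matrix (Fin m) (Fin m) F := fun i => Algebra.leftMulMatrix b (w i)
  have hQ : ∀ i e, ∑ a, (Q i a e : L) * (b a : L) = (c i : L) * (b e : L) := by
    intro i e
    have h1 : w i * b e = ∑ a, (Algebra.leftMulMatrix b (w i)) a e • b a := by
      conv_lhs => rw [← b.sum_repr (w i * b e)]
      refine Finset.sum_congr rfl fun a _ => ?_
      rw [Algebra.leftMulMatrix_eq_repr_mul]
    have h2 := congrArg (fun z : M => (z : L)) h1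
    change (c i : L) * (b e : L) = _ at h2
    rw [h2]
    push_cast
    rfl
  obtain ⟨D, hD, hP⟩ := common_den p' (fun v : Fin N × Fin m × Fin m => (Q v.1 v.2.1 v.2.2 : L))
    (fun v => (Q v.1 v.2.1 v.2.2).2)
  choose P hP using hP
  let Φ : MvPolynomial (Fin (n + N)) K := Matrix.det (Matrix.of fun a e : Fin m =>
    ∑ i, X (Fin.natAdd n i) * rename (fun t : T => Fin.castAdd N (t : Fin n)) (P (i, a, e)))
  have key : ∀ (r : Fin n → L) (v : Fin N → L), (∀ t ∈ T, r t = p t) →
      aeval (Fin.append r v) Φ = aeval p' D ^ m *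
        Matrix.det (Matrix.of fun a e : Fin m => ∑ i, v i * algebraMap F L (Q i a e)) := by
    intro r v hr
    have h1 : aeval (Fin.append r v) Φ = Matrix.det (Matrix.of fun a e : Fin m =>
        aeval p' D * ∑ i, v i * algebraMap F L (Q i a e)) := by
      change (aeval (R := K) (Fin.append r v)).toRingHom (Matrix.det _) = _
      rw [RingHom.map_det]
      congr 1
      ext a e
      rw [RingHom.mapMatrix_apply, Matrix.map_apply, Matrix.of_apply, Matrix.of_apply, map_sum,
        Finset.mul_sum]
      refine Finset.sum_congr rfl fun i _ => ?_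
      change aeval (Fin.append r v) (X (Fin.natAdd n i) * rename _ (P (i, a, e))) = _
      rw [map_mul, aeval_X, Fin.append_right, aeval_rename]
      have h2 : (Fin.append r v ∘ fun t : T => Fin.castAdd N (t : Fin n)) = p' := by
        funext t
        change Fin.append r v (Fin.castAdd N (t : Fin n)) = p t
        rw [Fin.append_left]
        exact hr t t.2
      rw [h2, hP]
      change v i * (aeval p' D * (Q i a e : L)) = aeval p' D * (v i * (Q i a e : L))
      ring
    rw [h1]
    have h3 : (Matrix.of fun a e : Fin m => aeval p' D * ∑ i, v i * algebraMap F L (Q i a e)) =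
        aeval p' D • (Matrix.of fun a e : Fin m => ∑ i, v i * algebraMap F L (Q i a e)) := by
      ext a e
      rw [Matrix.smul_apply, Matrix.of_apply, Matrix.of_apply, smul_eq_mul]
    rw [h3, Matrix.det_smul, Fintype.card_fin]
  -- at the generic point
  have h1 : aeval (Fin.append p U) Φ = 0 := by
    rw [key p U fun t _ => rfl]
    refine mul_eq_zero_of_right _ ?_
    rw [← Matrix.exists_vecMul_eq_zero_iff]
    refine ⟨fun a => (b a : L), ?_, ?_⟩
    · intro h0
      have h1 : 0 < m := Module.finrank_pos
      have h2 := congrFun h0 ⟨0, h1⟩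
      exact b.ne_zero ⟨0, h1⟩ (Subtype.ext h2)
    · funext e
      rw [Pi.zero_apply]
      change ∑ a, (b a : L) * (∑ i, U i * (Q i a e : L)) = 0
      have h1 : ∀ a, (b a : L) * (∑ i, U i * (Q i a e : L)) =
          ∑ i, U i * ((Q i a e : L) * (b a : L)) := by
        intro a
        rw [Finset.mul_sum]
        refine Finset.sum_congr rfl fun i _ => ?_
        ring
      rw [Finset.sum_congr rfl fun a _ => h1 a, Finset.sum_comm]
      have h2 : ∀ i, ∑ a, U i * ((Q i a e : L) * (b a : L)) =
          (b e : L) * ((c i : L) * U i) := by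
        intro i
        rw [← Finset.mul_sum, hQ]
        ring
      have h3 : ∑ i, (c i : L) * U i = 0 := hc
      rw [Finset.sum_congr rfl fun i _ => h2 i, ← Finset.mul_sum, h3, mul_zero]
  have h2 : aeval (Fin.append q u) Φ = 0 := by
    have h3 := h (up Φ) (by rw [aeval_jet_up]; exact h1)
    rwa [aeval_jet_up] at h3
  rw [key q u fun t ht => (hT t ht).symm] at h2
  have h3 := (mul_eq_zero.1 h2).resolve_left (pow_ne_zero _ hD)
  have : CharZero F := charZero_of_injective_algebraMap (algebraMap K F).injective
  rw [det_factor b w u, Finset.prod_eq_zero_iff] at h3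
  obtain ⟨σ, -, hσ⟩ := h3
  have hmem : ∀ i, σ (w i) ∈ aclF K (Set.range p') := by
    intro i
    rw [mem_aclF, mem_acl_iff]
    have h4 : IsAlgebraic F (w i) := (Algebra.IsAlgebraic.of_finite F M).isAlgebraic (w i)
    exact h4.algHom σ
  have h4 := hu (fun i => ⟨σ (w i), hmem i⟩) (by
    rw [← hσ]
    refine Finset.sum_congr rfl fun i _ => ?_
    rw [mul_comm, Algebra.smul_def]
    rfl)
  intro i
  have h5 : σ (w i) = 0 := congrArg Subtype.val (h4 i)
  have h6 : w i = 0 := (map_eq_zero_iff σ σ.injective).1 h5
  have h7 : (c i : L) = 0 := congrArg Subtype.val h6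
  exact Subtype.ext h7

end Pool.Agent.FNR
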