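import Pool.Agent.FNR.PowR

/-! # Lifting a root to the generic point -/

namespace Pool.Agent.FNR

open MvPolynomial Pool.Agent.FN Pool.Agent.FNX

theorem der_root {K L : Type} [Field K] [CharZero K] [Field L] [Algebra K L]
    (δ : Derivation K L L) {h w : L} {m n : ℕ} (hh : h ≠ 0) (hn : n ≠ 0) (hw : w ^ n = h ^ m) :
    h * δ w = algebraMap K L ((m : K) / n) * (w * δ h) := by
  have hw0 : w ≠ 0 := by
    rintro rfl
    rw [zero_pow hn] at hw
    exact pow_ne_zero m hh hw.symm
  have hL : CharZero L := charZero_of_injective_algebraMap (algebraMap K L).injective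
  have hnL : (n : L) ≠ 0 := Nat.cast_ne_zero.2 hn
  have h1 := congrArg δ hw
  rw [Derivation.leibniz_pow, Derivation.leibniz_pow] at h1
  simp only [smul_eq_mul, nsmul_eq_mul] at h1
  have h2 : (n : L) * (w ^ n * δ w) * h = (m : L) * (h ^ m * δ h) * w := by
    have e1 : w ^ n = w ^ (n - 1) * w := (pow_sub_one_mul hn w).symm
    have e2 : (m : L) * h ^ m = (m : L) * (h ^ (m - 1) * h) := by
      rcases Nat.eq_zero_or_pos m with h0 | h0
      · rw [h0]
        simp
      · rw [pow_sub_one_mul h0.ne' h]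
    calc (n : L) * (w ^ n * δ w) * h = (n : L) * (w ^ (n - 1) * δ w) * w * h := by rw [e1]; ring
      _ = (m : L) * (h ^ (m - 1) * δ h) * w * h := by rw [h1]
      _ = (m : L) * (h ^ (m - 1) * h) * δ h * w := by ring
      _ = (m : L) * h ^ m * δ h * w := by rw [← e2]
      _ = (m : L) * (h ^ m * δ h) * w := by ring
  rw [hw] at h2
  have h3 : (n : L) * (δ w * h) = (m : L) * (δ h * w) := by
    apply mul_left_cancel₀ (pow_ne_zero m hh)
    linear_combination h2
  rw [map_div₀, map_natCast, map_natCast]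
  field_simp
  linear_combination h3

/-- the inverse -/
theorem der_inv {K L : Type} [Field K] [Field L] [Algebra K L]
    (δ : Derivation K L L) {h : L} (hh : h ≠ 0) :
    h * δ h⁻¹ = algebraMap K L (-1) * (h⁻¹ * δ h) := by
  have h1 : h * h⁻¹ = 1 := mul_inv_cancel₀ hh
  have h2 := congrArg δ h1
  rw [Derivation.leibniz, Derivation.map_one_eq_zero] at h2
  simp only [smul_eq_mul] at h2
  rw [map_neg, map_one]
  linear_combination h2

/-- every jet polynomial is bounded -/
theorem exists_bdd {K : Type} [Field K] {N : ℕ} (Φ : MvPolynomial (Fin N × ℕ) K) :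
    ∃ D, Bdd D Φ := by
  refine ⟨max Φ.totalDegree (Φ.vars.sup fun v => v.2), le_max_left _ _, fun v hv => ?_⟩
  exact (Finset.le_sup (f := fun v : Fin N × ℕ => v.2) hv).trans (le_max_right _ _)

/-- the expansion as a polynomial in the root -/
theorem exp_poly {K : Type} [Field K] {N : ℕ} (i : Fin N) (μ : K)
    (Φ : MvPolynomial (Fin (N + 1) × ℕ) K) :
    ∃ (F : Polynomial (MvPolynomial (Fin N × ℕ) K)) (E : ℕ),
      ∀ {S : Type} [CommRing S] [Algebra K S] (δ : Derivation K S S) (u : Fin N → S) (w : S),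
        u i * δ w = algebraMap K S μ * (w * δ (u i)) →
        F.eval₂ (aeval (R := K) (jet δ u)).toRingHom w =
          u i ^ E * aeval (jet δ (Fin.snoc u w : Fin (N + 1) → S)) Φ := by
  obtain ⟨D, hD⟩ := exists_bdd Φ
  obtain ⟨R, -, hR⟩ := full_expR i μ Φ hD
  refine ⟨∑ b : Fin (D + 1), Polynomial.monomial (b : ℕ) (R b), D * D,
    fun {S} _ _ δ u w hw => ?_⟩
  rw [← hR δ u w hw, Polynomial.eval₂_finsetSum]
  refine Finset.sum_congr rfl fun b _ => ?_
  rw [Polynomial.eval₂_monomial, mul_comm]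
  rfl

theorem spz_ne {K L : Type} [Field K] [Field L] [Algebra K L] {δ : Derivation K L L} {N : ℕ}
    {a b : Fin N → L} (hab : Spz δ a b) {i : Fin N} (hb : b i ≠ 0) : a i ≠ 0 := by
  intro ha
  apply hb
  have h1 := hab (X (i, 0)) (by rw [aeval_X]; exact ha)
  rwa [aeval_X] at h1

theorem spz_inv {K L : Type} [Field K] [Field L] [Algebra K L]
    (δ : Derivation K L L) {N : ℕ} (a b : Fin N → L) (hab : Spz δ a b) (i : Fin N)
    (hb : b i ≠ 0) :
    Spz δ (Fin.snoc a (a i)⁻¹ : Fin (N + 1) → L) (Fin.snoc b (b i)⁻¹) := by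
  have ha := spz_ne hab hb
  intro Φ hΦ
  obtain ⟨F, E, hF⟩ := exp_poly i (-1 : K) Φ
  have h1 := hF δ a _ (der_inv δ ha)
  have h2 := hF δ b _ (der_inv δ hb)
  rw [hΦ, mul_zero] at h1
  -- the reversed polynomial
  have key : ∀ y : Fin N → L, y i ≠ 0 → aeval (jet δ y) (∑ e ∈ Finset.range (F.natDegree + 1),
      X (i, 0) ^ (F.natDegree - e) * F.coeff e) =
      y i ^ F.natDegree * F.eval₂ (aeval (R := K) (jet δ y)).toRingHom (y i)⁻¹ := by
    intro y hy
    rw [Polynomial.eval₂_eq_sum_range, map_sum, Finset.mul_sum]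
    refine Finset.sum_congr rfl fun e he => ?_
    have he' : e ≤ F.natDegree := Nat.lt_succ_iff.1 (Finset.mem_range.1 he)
    rw [map_mul, map_pow, aeval_X]
    have h5 : jet δ y (i, 0) = y i := rfl
    have h6 : y i ^ F.natDegree = y i ^ (F.natDegree - e) * y i ^ e := by
      rw [← pow_add, Nat.sub_add_cancel he']
    rw [h5, h6, inv_pow]
    change _ * aeval (jet δ y) (F.coeff e) = _ * (aeval (jet δ y) (F.coeff e) * _)
    field_simp
  have h3 := hab _ ((key a ha).trans (by rw [h1, mul_zero]))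
  rw [key b hb, h2] at h3
  rcases mul_eq_zero.1 h3 with h4 | h4
  · exact absurd h4 (pow_ne_zero _ hb)
  · rcases mul_eq_zero.1 h4 with h5 | h5
    · exact absurd h5 (pow_ne_zero _ hb)
    · exact h5

theorem spz_root {K L : Type} [Field K] [CharZero K] [Field L] [IsAlgClosed L] [Algebra K L]
    (δ : Derivation K L L) {N : ℕ} (a b : Fin N → L) (hab : Spz δ a b) (i : Fin N) (m n : ℕ)
    (hn : n ≠ 0) (hb : b i ≠ 0) (β : L) (hβ : β ^ n = b i ^ m) :
    ∃ α : L, α ^ n = a i ^ m ∧
      Spz δ (Fin.snoc a α : Fin (N + 1) → L) (Fin.snoc b β) := by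
  classical
  have ha := spz_ne hab hb
  have hL : CharZero L := charZero_of_injective_algebraMap (algebraMap K L).injective
  by_contra hcon
  push Not at hcon
  -- the witnesses
  have hw : ∀ α : L, ∃ (F : Polynomial (MvPolynomial (Fin N × ℕ) K)), α ^ n = a i ^ m →
      F.eval₂ (aeval (R := K) (jet δ a)).toRingHom α = 0 ∧
        F.eval₂ (aeval (R := K) (jet δ b)).toRingHom β ≠ 0 := by
    intro α
    by_cases hα : α ^ n = a i ^ m
    · have h1 := hcon α hα
      unfold Spz at h1
      push Not at h1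
      obtain ⟨Φ, h2, h3⟩ := h1
      obtain ⟨F, E, hF⟩ := exp_poly i ((m : K) / n) Φ
      refine ⟨F, fun _ => ⟨?_, ?_⟩⟩
      · rw [hF δ a α (der_root δ ha hn hα), h2, mul_zero]
      · rw [hF δ b β (der_root δ hb hn hβ)]
        exact mul_ne_zero (pow_ne_zero _ hb) h3
    · exact ⟨0, fun h => absurd h hα⟩
  choose F hF using hw
  -- the roots
  let c : L := a i ^ m
  have hc : c ≠ 0 := pow_ne_zero _ ha
  let P : Polynomial L := Polynomial.X ^ n - Polynomial.C c
  have hPm : P.Monic := Polynomial.monic_X_pow_sub_C c hn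
  have hPd : P.natDegree = n := Polynomial.natDegree_X_pow_sub_C
  have hPsep : P.Separable := Polynomial.separable_X_pow_sub_C c (Nat.cast_ne_zero.2 hn) hc
  have hPc : P.roots.toFinset.card = n := by
    rw [Multiset.toFinset_card_of_nodup (Polynomial.nodup_roots hPsep), ← hPd]
    exact (Polynomial.splits_iff_card_roots.1 (IsAlgClosed.splits P))
  have hroot : ∀ α, α ∈ P.roots.toFinset ↔ α ^ n = a i ^ m := by
    intro α
    rw [Multiset.mem_toFinset, Polynomial.mem_roots hPm.ne_zero, Polynomial.IsRoot.def,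
      Polynomial.eval_sub, Polynomial.eval_pow, Polynomial.eval_X, Polynomial.eval_C, sub_eq_zero]
  let G : Polynomial (MvPolynomial (Fin N × ℕ) K) :=
    Polynomial.X ^ n - Polynomial.C (X (i, 0) ^ m)
  have hGm : G.Monic := Polynomial.monic_X_pow_sub_C _ hn
  let H : Polynomial (MvPolynomial (Fin N × ℕ) K) := ∏ α ∈ P.roots.toFinset, F α
  let Rm := H %ₘ G
  have hH : G * (H /ₘ G) + Rm = H := by
    have := Polynomial.modByMonic_add_div H G
    rw [add_comm]
    exact this
  have hRd : Rm.natDegree < n := by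
    have h1 := Polynomial.natDegree_modByMonic_lt H hGm (by
      intro h
      have h2 := congrArg Polynomial.natDegree h
      have h3 : G.natDegree = n := Polynomial.natDegree_X_pow_sub_C
      rw [h3, Polynomial.natDegree_one] at h2
      exact hn h2)
    rwa [show G.natDegree = n from Polynomial.natDegree_X_pow_sub_C] at h1
  have hG : ∀ (y : Fin N → L) (w : L), w ^ n = y i ^ m →
      G.eval₂ (aeval (R := K) (jet δ y)).toRingHom w = 0 := by
    intro y w hyw
    rw [Polynomial.eval₂_sub, Polynomial.eval₂_pow, Polynomial.eval₂_X, Polynomial.eval₂_C]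
    have h1 : (aeval (R := K) (jet δ y)).toRingHom (X (i, 0) ^ m) = y i ^ m := by
      change aeval (jet δ y) (X (i, 0) ^ m) = _
      rw [map_pow, aeval_X]
      rfl
    rw [h1, hyw, sub_self]
  -- the remainder vanishes at `a`
  have hRa : Rm.map (aeval (R := K) (jet δ a)).toRingHom = 0 := by
    refine Polynomial.eq_zero_of_natDegree_lt_card_of_eval_eq_zero' _ P.roots.toFinset
      (fun α hα => ?_) ?_
    · have h1 := (hroot α).1 hα
      have h2 := congrArg (Polynomial.eval₂ (aeval (R := K) (jet δ a)).toRingHom α) hH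
      rw [Polynomial.eval₂_add, Polynomial.eval₂_mul, hG a α h1, zero_mul, zero_add] at h2
      rw [Polynomial.eval_map, h2]
      change Polynomial.eval₂ _ α (∏ α ∈ P.roots.toFinset, F α) = 0
      rw [Polynomial.eval₂_finsetProd]
      exact Finset.prod_eq_zero hα (hF α h1).1
    · rw [hPc]
      exact lt_of_le_of_lt Polynomial.natDegree_map_le hRd
  have hRb : Rm.map (aeval (R := K) (jet δ b)).toRingHom = 0 := by
    ext e
    rw [Polynomial.coeff_map, Polynomial.coeff_zero]
    refine hab (Rm.coeff e) ?_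
    have h1 := congrArg (fun f => Polynomial.coeff f e) hRa
    simp only [Polynomial.coeff_map, Polynomial.coeff_zero] at h1
    exact h1
  have h2 := congrArg (Polynomial.eval₂ (aeval (R := K) (jet δ b)).toRingHom β) hH
  rw [Polynomial.eval₂_add, Polynomial.eval₂_mul, hG b β hβ, zero_mul, zero_add,
    ← Polynomial.eval_map, hRb, Polynomial.eval_zero] at h2
  have h3 : Polynomial.eval₂ (aeval (R := K) (jet δ b)).toRingHom β H ≠ 0 := by
    change Polynomial.eval₂ _ β (∏ α ∈ P.roots.toFinset, F α) ≠ 0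
    rw [Polynomial.eval₂_finsetProd]
    exact Finset.prod_ne_zero_iff.2 fun α hα => (hF α ((hroot α).1 hα)).2
  exact h3 h2.symm

end Pool.Agent.FNR
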