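import Pool.Agent.FN.Pow
import Pool.Agent.FNX.Poly2

/-! # Elimination of one root -/

namespace Pool.Agent.FNR

open MvPolynomial Pool.Agent.FN Pool.Agent.FNX

section PowAux

variable {K : Type} [Field K]

/-- numerators of the derivatives of `w ^ b * R` if `w` is the `c`-th power of `u i` -/
noncomputable def qR {N : ℕ} (i : Fin N) (c : K) (R : MvPolynomial (Fin N × ℕ) K) (a : ℕ) :
    MvPolynomial (Fin N × ℕ) K :=
  qrec (sh K N) (C c * sh K N (X (i, 0))) (X (i, 0)) R a

theorem qR_bdd {N : ℕ} (i : Fin N) (c : K) {R : MvPolynomial (Fin N × ℕ) K} {D : ℕ}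
    (hR : Bdd D R) (a : ℕ) : Bdd (D + 2 * a) (qR i c R a) := by
  have hX : Bdd 1 (sh K N (X (i, 0))) := by
    have : sh K N (X (i, 0)) = (X (i, 1) : MvPolynomial (Fin N × ℕ) K) := by
      simp [sh]
    rw [this]
    exact Bdd.X _ (by simp) le_rfl
  have hn : ∀ k : ℕ, Bdd 0 ((k : ℕ) : MvPolynomial (Fin N × ℕ) K) := by
    intro k
    have : ((k : ℕ) : MvPolynomial (Fin N × ℕ) K) = C (k : K) := by simp
    rw [this]
    exact Bdd.C _
  induction a with
  | zero => simpa [qR, qrec] using hR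
  | succ a ih =>
    rw [qR, qrec]
    have h1 : Bdd 1 (C c * sh K N (X (i, 0)) -
        (a : MvPolynomial (Fin N × ℕ) K) * sh K N (X (i, 0))) := by
      refine Bdd.sub ?_ ?_
      · simpa using (Bdd.C (D := 0) c).mul hX
      · simpa using (hn a).mul hX
    have h2 := h1.mul ih
    have h3 := (Bdd.X (K := K) (D := 1) (i, 0) (by simp) le_rfl).mul ih.sh
    exact (h2.mono (by omega)).add (h3.mono (by omega))

theorem pw_log {S : Type} [CommRing S] [Algebra K S] (δ : Derivation K S S) {h w : S} {μ : K}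
    (hw : h * δ w = algebraMap K S μ * (w * δ h)) (b : ℕ) :
    h * δ (w ^ b) = (algebraMap K S ((b : K) * μ) * δ h) * w ^ b := by
  rw [Derivation.leibniz_pow]
  simp only [smul_eq_mul, nsmul_eq_mul]
  cases b with
  | zero => simp
  | succ c =>
    simp only [Nat.add_sub_cancel, map_mul, map_natCast]
    linear_combination (((c + 1 : ℕ) : S) * w ^ c) * hw

theorem qR_ev {N : ℕ} {S : Type} [CommRing S] [Algebra K S] (δ : Derivation K S S)
    (u : Fin N → S) (i : Fin N) (w : S) (μ : K)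
    (hw : u i * δ w = algebraMap K S μ * (w * δ (u i))) (b : ℕ)
    (R : MvPolynomial (Fin N × ℕ) K) (a : ℕ) :
    u i ^ a * δ^[a] (w ^ b * aeval (jet δ u) R) =
      w ^ b * aeval (jet δ u) (qR i ((b : K) * μ) R a) := by
  have h1 := qrec_spec δ (w ^ b) (algebraMap K S ((b : K) * μ) * δ (u i)) (u i)
    (aeval (jet δ u) R) (pw_log δ hw b) a
  rw [h1]
  congr 1
  have h2 := qrec_map (aeval (jet δ u) : MvPolynomial (Fin N × ℕ) K →ₐ[K] S).toRingHom
    (sh K N) δ (fun x => (sh_aeval_jet δ u x).symm)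
    (C ((b : K) * μ) * sh K N (X (i, 0))) (X (i, 0)) R a
  have h3 : (aeval (jet δ u) : MvPolynomial (Fin N × ℕ) K →ₐ[K] S).toRingHom
      (X (i, 0)) = u i := by
    change aeval (jet δ u) (X (i, 0)) = u i
    rw [aeval_X]; rfl
  have h4 : (aeval (jet δ u) : MvPolynomial (Fin N × ℕ) K →ₐ[K] S).toRingHom
      (C ((b : K) * μ) * sh K N (X (i, 0))) =
        algebraMap K S ((b : K) * μ) * δ (u i) := by
    change aeval (jet δ u) (C ((b : K) * μ) * sh K N (X (i, 0))) = _
    rw [map_mul, aeval_C, ← sh_aeval_jet, aeval_X]; rfl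
  rw [h3, h4] at h2
  exact h2.symm

/-- one monomial -/
theorem mono_expR {N D : ℕ} (i : Fin N) (μ : K) : ∀ (k : ℕ) (ν : (Fin (N + 1) × ℕ) →₀ ℕ),
    ν.degree = k → (∀ v ∈ ν.support, v.2 ≤ D) →
    ∃ (b : ℕ) (ρ : MvPolynomial (Fin N × ℕ) K), b ≤ k ∧ Bdd (k * (2 * D + 2)) ρ ∧
      ∀ {S : Type} [CommRing S] [Algebra K S] (δ : Derivation K S S) (u : Fin N → S) (w : S),
        u i * δ w = algebraMap K S μ * (w * δ (u i)) →
        u i ^ (k * D) * aeval (jet δ (Fin.snoc u w : Fin (N + 1) → S))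
          (monomial ν (1 : K)) = w ^ b * aeval (jet δ u) ρ := by
  intro k
  induction k with
  | zero =>
    intro ν hν _
    have h0 : ν = 0 := (Finsupp.degree_eq_zero_iff ν).1 hν
    refine ⟨0, 1, le_rfl, ?_, fun {S} _ _ δ u w hw => ?_⟩
    · have := Bdd.C (N := N) (D := 0) (1 : K)
      simpa using this
    · subst h0
      simp
  | succ k ih =>
    intro ν' hν' hD
    have hne : ν' ≠ 0 := by
      rintro rfl
      simp at hν'
    obtain ⟨v, hv⟩ : ∃ v, v ∈ ν'.support := by
      by_contra hcon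
      push Not at hcon
      exact hne (Finsupp.support_eq_empty.1 (Finset.eq_empty_of_forall_notMem hcon))
    have hv0 : ν' v ≠ 0 := Finsupp.mem_support_iff.1 hv
    obtain ⟨ν, hν⟩ : ∃ ν, ν' = ν + Finsupp.single v 1 := by
      refine ⟨ν' - Finsupp.single v 1, ?_⟩
      ext w
      by_cases hw : w = v
      · subst hw
        simp
        omega
      · simp [Ne.symm hw]
    have hdeg : ν.degree = k := by
      have := hν'
      rw [hν, map_add, Finsupp.degree_single] at this
      omega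
    have hνD : ∀ w ∈ ν.support, w.2 ≤ D := by
      intro w hw
      refine hD w ?_
      rw [Finsupp.mem_support_iff] at hw ⊢
      rw [hν, Finsupp.add_apply]
      omega
    obtain ⟨b, ρ, hb, hρ, he⟩ := ih ν hdeg hνD
    have hvD := hD v hv
    have hmon : (monomial ν' (1 : K)) = monomial ν 1 * X v := by
      rw [hν, X, monomial_mul, one_mul]
    have hstep : ∃ (c : ℕ) (τ : MvPolynomial (Fin N × ℕ) K), c ≤ 1 ∧ Bdd (2 * D + 2) τ ∧
        ∀ {S : Type} [CommRing S] [Algebra K S] (δ : Derivation K S S) (u : Fin N → S) (w : S),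
          u i * δ w = algebraMap K S μ * (w * δ (u i)) →
          u i ^ D * jet δ (Fin.snoc u w : Fin (N + 1) → S) v =
            w ^ c * aeval (jet δ u) τ := by
      obtain ⟨j, a⟩ := v
      simp only at hvD
      induction j using Fin.lastCases with
      | last =>
        refine ⟨1, X (i, 0) ^ (D - a) * qR i μ 1 a, le_rfl, ?_,
          fun {S} _ _ δ u w hw => ?_⟩
        · have h1 := (Bdd.X (K := K) (D := 1) (i, 0) (by simp) le_rfl).pow (D - a)
          have h2 : Bdd (0 + 2 * a) (qR i μ (1 : MvPolynomial (Fin N × ℕ) K) a) := by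
            refine qR_bdd i μ ?_ a
            have := Bdd.C (N := N) (D := 0) (1 : K)
            simpa using this
          exact (h1.mul h2).mono (by omega)
        · have h3 := qR_ev δ u i w μ hw 1 1 a
          rw [map_one, mul_one, pow_one, Nat.cast_one, one_mul] at h3
          have h4 : jet δ (Fin.snoc u w : Fin (N + 1) → S) (Fin.last N, a) =
              δ^[a] w := by
            simp [jet]
          rw [h4, map_mul, map_pow, aeval_X]
          have h5 : jet δ u (i, 0) = u i := rfl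
          rw [h5]
          have h6 : u i ^ D = u i ^ (D - a) * u i ^ a := by
            rw [← pow_add]; congr 1; omega
          rw [h6, pow_one]
          linear_combination u i ^ (D - a) * h3
      | cast j =>
        refine ⟨0, X (i, 0) ^ D * X (j, a), by omega, ?_, fun {S} _ _ δ u w hw => ?_⟩
        · have h1 := (Bdd.X (K := K) (D := 1) (i, 0) (by simp) le_rfl).pow D
          have h2 : Bdd (D + 1) (X (j, a) : MvPolynomial (Fin N × ℕ) K) :=
            Bdd.X _ (by simp; omega) (by omega)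
          exact (h1.mul h2).mono (by omega)
        · have h4 : jet δ (Fin.snoc u w : Fin (N + 1) → S) (Fin.castSucc j, a) =
              δ^[a] (u j) := by
            simp [jet]
          rw [h4, map_mul, map_pow, aeval_X, aeval_X]
          have h5 : jet δ u (i, 0) = u i := rfl
          have h6 : jet δ u (j, a) = δ^[a] (u j) := rfl
          rw [h5, h6]
          ring
    obtain ⟨c, τ, hc, hτ, hs⟩ := hstep
    refine ⟨b + c, ρ * τ, by omega, ?_, fun {S} _ _ δ u w hw => ?_⟩
    · exact (hρ.mul hτ).mono (le_of_eq (by ring))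
    · have he' := he δ u w hw
      have hs' := hs δ u w hw
      rw [hmon, map_mul, aeval_X, map_mul]
      have h7 : u i ^ ((k + 1) * D) = u i ^ (k * D) * u i ^ D := by
        rw [← pow_add]; congr 1; ring
      rw [h7, pow_add]
      linear_combination (u i ^ D * jet δ (Fin.snoc u w : Fin (N + 1) → S) v) * he' +
        (w ^ b * aeval (jet δ u) ρ) * hs'

/-- the expansion in powers of `w`, the same for all `δ`, `u`, `w` -/
theorem full_expR {N D : ℕ} (i : Fin N) (μ : K) (Φ : MvPolynomial (Fin (N + 1) × ℕ) K)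
    (hΦ : Bdd D Φ) :
    ∃ R : ℕ → MvPolynomial (Fin N × ℕ) K, (∀ b, Bdd (D * (2 * D + 2)) (R b)) ∧
      ∀ {S : Type} [CommRing S] [Algebra K S] (δ : Derivation K S S) (u : Fin N → S) (w : S),
        u i * δ w = algebraMap K S μ * (w * δ (u i)) →
      ∑ b : Fin (D + 1), w ^ (b : ℕ) * aeval (jet δ u) (R b) =
        u i ^ (D * D) * aeval (jet δ (Fin.snoc u w : Fin (N + 1) → S)) Φ := by
  classical
  have h1 : ∀ ν : (Fin (N + 1) × ℕ) →₀ ℕ, ∃ (b : ℕ) (ρ : MvPolynomial (Fin N × ℕ) K),
      ν ∈ Φ.support → (b ≤ D ∧ Bdd (D * (2 * D + 2)) ρ ∧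
      ∀ {S : Type} [CommRing S] [Algebra K S] (δ : Derivation K S S) (u : Fin N → S) (w : S),
        u i * δ w = algebraMap K S μ * (w * δ (u i)) →
        u i ^ (D * D) * aeval (jet δ (Fin.snoc u w : Fin (N + 1) → S))
          (monomial ν (1 : K)) = w ^ b * aeval (jet δ u) ρ) := by
    intro ν
    by_cases hν : ν ∈ Φ.support
    · have hk : ν.degree ≤ D := (le_totalDegree hν).trans hΦ.1
      have hs : ∀ v ∈ ν.support, v.2 ≤ D := by
        intro v hv
        exact hΦ.2 v (((mem_vars_iff_mem_support v).2 ⟨ν, hν, hv⟩))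
      obtain ⟨b, ρ, hb, hρ, he⟩ := mono_expR i μ ν.degree ν rfl hs
      refine ⟨b, X (i, 0) ^ ((D - ν.degree) * D) * ρ, fun _ => ⟨hb.trans hk, ?_,
        fun {S} _ _ δ u w hw => ?_⟩⟩
      · have h2 := ((Bdd.X (K := K) (D := 1) (i, 0) (by simp) le_rfl).pow
          ((D - ν.degree) * D)).mul hρ
        refine h2.mono ?_
        obtain ⟨c, hc⟩ := Nat.exists_eq_add_of_le hk
        rw [hc]
        simp only [Nat.add_sub_cancel_left, mul_one]
        nlinarith [Nat.zero_le c, Nat.zero_le ν.degree,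
          Nat.zero_le (c * (ν.degree + c))]
      · have he' := he δ u w hw
        rw [map_mul, map_pow, aeval_X]
        have h5 : jet δ u (i, 0) = u i := rfl
        rw [h5]
        have h6 : u i ^ (D * D) = u i ^ ((D - ν.degree) * D) * u i ^ (ν.degree * D) := by
          rw [← pow_add, ← Nat.add_mul, Nat.sub_add_cancel hk]
        rw [h6]
        linear_combination u i ^ ((D - ν.degree) * D) * he'
    · exact ⟨0, 0, fun h => absurd h hν⟩
  choose bb ρ hbρ using h1
  refine ⟨fun b => ∑ ν ∈ Φ.support.filter (fun ν => bb ν = b), coeff ν Φ • ρ ν, ?_,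
    fun {S} _ _ δ u w hw => ?_⟩
  · intro b
    refine Bdd.sum _ _ fun ν hν => ?_
    exact ((hbρ ν (Finset.mem_filter.1 hν).1).2.1).smul _
  · rw [Fin.sum_univ_eq_sum_range (fun b => w ^ b * aeval (jet δ u)
      (∑ ν ∈ Φ.support.filter (fun ν => bb ν = b), coeff ν Φ • ρ ν)) (D + 1)]
    have h2 : ∀ b, w ^ b * aeval (jet δ u)
        (∑ ν ∈ Φ.support.filter (fun ν => bb ν = b), coeff ν Φ • ρ ν) =
        ∑ ν ∈ Φ.support.filter (fun ν => bb ν = b), u i ^ (D * D) *
          aeval (jet δ (Fin.snoc u w : Fin (N + 1) → S)) (monomial ν (coeff ν Φ)) := by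
      intro b
      rw [map_sum, Finset.mul_sum]
      refine Finset.sum_congr rfl fun ν hν => ?_
      obtain ⟨hν1, hν2⟩ := Finset.mem_filter.1 hν
      have h3 := (hbρ ν hν1).2.2 δ u w hw
      have h4 : monomial ν (coeff ν Φ) = coeff ν Φ • monomial ν (1 : K) := by
        rw [smul_monomial, smul_eq_mul, mul_one]
      rw [h4, map_smul, map_smul, mul_smul_comm, mul_smul_comm, h3, hν2]
    simp only [h2]
    rw [Finset.sum_fiberwise_of_maps_to (g := bb) (fun ν hν => by
      have := (hbρ ν hν).1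
      exact Finset.mem_range.2 (by omega))]
    rw [← Finset.mul_sum, ← map_sum]
    congr 2
    exact Φ.as_sum.symm

end PowAux

/-- an embedding of the jets of the first `N` variables -/
noncomputable def emb (K : Type) [Field K] (N : ℕ) :
    MvPolynomial (Fin N × ℕ) K →ₐ[K] MvPolynomial (Fin (N + 1) × ℕ) K :=
  rename fun v => (Fin.castSucc v.1, v.2)

theorem aeval_emb {K L : Type} [Field K] [CommRing L] [Algebra K L] (δ : Derivation K L L) {N : ℕ}
    (a : Fin N → L) (α : L) (F : MvPolynomial (Fin N × ℕ) K) :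
    aeval (jet δ (Fin.snoc a α : Fin (N + 1) → L)) (emb K N F) = aeval (jet δ a) F := by
  rw [emb, aeval_rename]
  congr 1
  congr 1
  funext v
  simp [jet]

theorem rel_root (D N : ℕ) : ∃ D' : ℕ, ∀ {K L : Type} [Field K] [Field L] [Algebra K L]
    [CharZero K] (δ : Derivation K L L), CK δ → ∀ (a b : Fin N → L) (α β : L),
    Spz δ (Fin.snoc a α : Fin (N + 1) → L) (Fin.snoc b β) →
    ∀ (i : Fin N) (μ : K), a i ≠ 0 → b i ≠ 0 → β ≠ 0 →
      a i * δ α = algebraMap K L μ * (α * δ (a i)) →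
      b i * δ β = algebraMap K L μ * (β * δ (b i)) →
      RelV δ D (Fin.snoc a α : Fin (N + 1) → L) (Fin.snoc b β) → RelV δ D' a b := by
  classical
  refine ⟨(D + 1) * (D * (2 * D + 2) + 2 * D) + 1, ?_⟩
  intro K L _ _ _ _ δ hδ a b α β hab i μ ha hb hβ hα' hβ' h
  obtain ⟨Φ, hΦ, hne, h0⟩ := h
  obtain ⟨R, hR, hsum⟩ := full_expR i μ Φ hΦ
  obtain ⟨r, e, c, hind, hc⟩ := subfam (K := K)
    (fun j : Fin (D + 1) => α ^ (j : ℕ) * aeval (jet δ a) (R j))
  have hr : r ≤ D + 1 := by simpa using Fintype.card_le_of_embedding e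
  -- the relation at `b`
  have hcb : ∑ k, c k • (β ^ ((e k : Fin (D + 1)) : ℕ) * aeval (jet δ b) (R (e k))) =
      ∑ j : Fin (D + 1), β ^ (j : ℕ) * aeval (jet δ b) (R j) := by
    have h1 : ∀ (y : Fin N → L) (γ : L), aeval (jet δ (Fin.snoc y γ : Fin (N + 1) → L))
        (∑ k, c k • ((X (Fin.last N, 0) : MvPolynomial (Fin (N + 1) × ℕ) K) ^
          ((e k : Fin (D + 1)) : ℕ) * emb K N (R (e k))) -
          ∑ j : Fin (D + 1), (X (Fin.last N, 0) : MvPolynomial (Fin (N + 1) × ℕ) K) ^ (j : ℕ) *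
            emb K N (R j)) =
        ∑ k, c k • (γ ^ ((e k : Fin (D + 1)) : ℕ) * aeval (jet δ y) (R (e k))) -
          ∑ j : Fin (D + 1), γ ^ (j : ℕ) * aeval (jet δ y) (R j) := by
      intro y γ
      have h3 : jet δ (Fin.snoc y γ : Fin (N + 1) → L) (Fin.last N, 0) = γ := by simp [jet]
      rw [map_sub, map_sum, map_sum]
      congr 1
      · refine Finset.sum_congr rfl fun k _ => ?_
        rw [map_smul, map_mul, map_pow, aeval_X, h3, aeval_emb]
      · refine Finset.sum_congr rfl fun k _ => ?_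
        rw [map_mul, map_pow, aeval_X, h3, aeval_emb]
    have h2 := hab _ ((h1 a α).trans (by rw [hc, sub_self]))
    rw [h1] at h2
    exact sub_eq_zero.1 h2
  rw [hsum δ a α hα'] at hc
  rw [hsum δ b β hβ', h0, mul_zero] at hcb
  have hc0 : ∃ k, c k ≠ 0 := by
    by_contra hcon
    push Not at hcon
    have : a i ^ (D * D) * aeval (jet δ (Fin.snoc a α : Fin (N + 1) → L)) Φ = 0 := by
      rw [← hc]
      refine Finset.sum_eq_zero fun k _ => ?_
      rw [hcon k, zero_smul]
    exact (mul_ne_zero (pow_ne_zero _ ha) hne) this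
  obtain ⟨Q, hQ⟩ : ∃ Q : Matrix (Fin r) (Fin r) (MvPolynomial (Fin N × ℕ) K),
      Q = Matrix.of fun j k : Fin r => qR i ((((e k : Fin (D + 1)) : ℕ) : K) * μ) (R (e k))
        (j : ℕ) := ⟨_, rfl⟩
  have hrc : ∀ (y : Fin N → L) (γ : L), y i * δ γ = algebraMap K L μ * (γ * δ (y i)) →
      (∏ j : Fin r, y i ^ (j : ℕ)) * (Matrix.of fun j k : Fin r =>
      δ^[(j : ℕ)] (γ ^ ((e k : Fin (D + 1)) : ℕ) * aeval (jet δ y) (R (e k)))).det =
      (∏ k : Fin r, γ ^ ((e k : Fin (D + 1)) : ℕ)) * aeval (jet δ y) Q.det := by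
    intro y γ hγ
    have h1 : aeval (jet δ y) Q.det = (Matrix.of fun j k : Fin r =>
        aeval (jet δ y) (qR i ((((e k : Fin (D + 1)) : ℕ) : K) * μ) (R (e k)) j)).det := by
      rw [AlgHom.map_det, hQ]
      congr 1
    rw [h1]
    refine det_rc _ _ _ _ fun j k => ?_
    simp only [Matrix.of_apply]
    exact qR_ev δ y i γ μ hγ (e k) (R (e k)) j
  refine ⟨Q.det, ?_, ?_, ?_⟩
  · have h1 : Bdd (r * (D * (2 * D + 2) + 2 * D)) Q.det := by
      refine Bdd.det _ fun j k => ?_
      rw [hQ]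
      simp only [Matrix.of_apply]
      refine (qR_bdd i _ (hR (e k)) j).mono ?_
      have := j.2
      omega
    refine h1.mono ?_
    exact (Nat.mul_le_mul_right _ hr).trans (Nat.le_succ _)
  · intro h1
    have h2 := hrc a α hα'
    rw [h1, mul_zero] at h2
    rcases mul_eq_zero.1 h2 with h3 | h3
    · exact (Finset.prod_ne_zero_iff.2 fun j _ => pow_ne_zero _ ha) h3
    · exact wr_ne_zero δ hδ _ hind h3
  · have h2 := hrc b β hβ'
    rw [det_zero δ _ c hc0 hcb, mul_zero] at h2
    rcases mul_eq_zero.1 h2.symm with h3 | h3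
    · exfalso
      obtain ⟨k, _, hk⟩ := Finset.prod_eq_zero_iff.1 h3
      exact hβ (pow_eq_zero_iff'.1 hk).1
    · exact h3

end Pool.Agent.FNR
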